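import Pool.Agent.HJ71.Cnt

/-!
From digraphs to labelled clauses, and the arithmetic of the bound.
-/

namespace HJ71

theorem not_dicolorable {k : ℕ} (hk : 1 ≤ k) {D : Dig} (hD : k ≤ dichromatic D) :
    ¬ Dicolorable D (k - 1) := by
  intro h
  have : dichromatic D ≤ k - 1 := Nat.sInf_le h
  omega

theorem exists_anti {k n : ℕ} (hk : 1 ≤ k) (D : Dig) (e : D.V ≃ Fin n)
    (hD : ¬ Dicolorable D (k - 1)) (R : Cl n) (hr : ∀ x, R x x)
    (ht : ∀ x y z, R x y → R y z → R x z)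
    (hR : ∀ x y, R x y → ¬ D.adj (e.symm x) (e.symm y)) :
    ∃ A : Finset (Fin n), IsAnti R A ∧ A.card = k := by
  by_contra hcon
  apply hD
  obtain ⟨c, hc⟩ := dilworth R hr ht (k - 1) (by
    intro A hA
    by_contra hlt
    obtain ⟨A', hA'1, hA'2⟩ := Finset.exists_subset_card_eq (show k ≤ A.card by omega)
    exact hcon ⟨A', fun x hx y hy => hA x (hA'1 hx) y (hA'1 hy), hA'2⟩)
  refine ⟨fun v => c (e v), ?_⟩
  rintro i ⟨x, hx⟩
  have hstep : ∀ a b, (a ∈ {v | c (e v) = i} ∧ b ∈ {v | c (e v) = i} ∧ D.adj a b) →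
      R (e b) (e a) := by
    rintro a b ⟨ha, hb, hab⟩
    have ha' : c (e a) = i := ha
    have hb' : c (e b) = i := hb
    rcases hc (e a) (e b) (ha'.trans hb'.symm) with h | h
    · exact absurd (by simpa using hab) (hR _ _ h)
    · exact h
  have htrans : ∀ a b, Relation.TransGen
      (fun a b => a ∈ {v | c (e v) = i} ∧ b ∈ {v | c (e v) = i} ∧ D.adj a b) a b →
      R (e b) (e a) := by
    intro a b hab
    induction hab with
    | single h => exact hstep _ _ h
    | tail _ h ih => exact ht _ _ _ (hstep _ _ h) ih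
  rcases Relation.TransGen.head'_iff.1 hx with ⟨b, hxb, hbx⟩
  have h1 : R (e x) (e b) := by
    rcases Relation.reflTransGen_iff_eq_or_transGen.1 hbx with h | h
    · rw [h]; exact hr _
    · exact htrans _ _ h
  exact hR _ _ h1 (by simpa using hxb.2.2)

theorem arith (n w : ℕ) :
    (n + 1) * ((n * (n * (2 * n)) + 2 * n + 1) * (n * (n + 1) ^ (2 * w * n))) ≤
      (n + 1) ^ (2 * w * n + 6) := by
  have h1 : n * (n * (2 * n)) + 2 * n + 1 ≤ (n + 1) ^ 4 := by
    have : (n + 1) ^ 4 = n * (n * (2 * n)) + 2 * n + 1 +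
        (n ^ 4 + 2 * n ^ 3 + 6 * n ^ 2 + 2 * n) := by ring
    rw [this]
    exact Nat.le_add_right _ _
  calc (n + 1) * ((n * (n * (2 * n)) + 2 * n + 1) * (n * (n + 1) ^ (2 * w * n)))
      ≤ (n + 1) * ((n + 1) ^ 4 * ((n + 1) * (n + 1) ^ (2 * w * n))) := by
        apply Nat.mul_le_mul_left
        apply Nat.mul_le_mul h1
        apply Nat.mul_le_mul_right
        omega
    _ = (n + 1) ^ (2 * w * n + 6) := by ring

end HJ71
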