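import Pool.Agent.HJ71.Der

/-!
Counting the states, and the upper bound for labelled derivations.
-/

namespace HJ71

open scoped Classical in
section

variable {n : ℕ}

/-- In a preorder, a finite set is generated from below by an antichain. -/
theorem exists_basis {V : Type} [DecidableEq V] (R : V → V → Prop) (U : Finset V)
    (hr : ∀ x, R x x) (ht : ∀ x ∈ U, ∀ y ∈ U, ∀ z ∈ U, R x y → R y z → R x z) :
    ∃ A ⊆ U, IsAnti R A ∧ ∀ y ∈ U, ∃ q ∈ A, R q y := by
  obtain ⟨P, hP⟩ : ∃ P : Finset V → Prop, ∀ A, P A ↔ ∀ y ∈ U, ∃ q ∈ A, R q y :=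
    ⟨_, fun _ => Iff.rfl⟩
  obtain ⟨A, hA, hmin⟩ := Finset.exists_min_image (U.powerset.filter P) Finset.card
    ⟨U, Finset.mem_filter.2 ⟨Finset.mem_powerset.2 (Finset.Subset.refl _),
      (hP U).2 fun y hy => ⟨y, hy, hr y⟩⟩⟩
  rw [Finset.mem_filter, Finset.mem_powerset, hP] at hA
  refine ⟨A, hA.1, ?_, hA.2⟩
  intro x hx y hy hxy hR
  have h1 := hmin (A.erase y) (by
    rw [Finset.mem_filter, Finset.mem_powerset, hP]
    refine ⟨(Finset.erase_subset _ _).trans hA.1, ?_⟩
    intro z hz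
    obtain ⟨q, hq, hqz⟩ := hA.2 z hz
    by_cases hqy : q = y
    · subst hqy
      exact ⟨x, Finset.mem_erase.2 ⟨hxy, hx⟩,
        ht x (hA.1 hx) q (hA.1 hq) z hz hR hqz⟩
    · exact ⟨q, Finset.mem_erase.2 ⟨hqy, hq⟩, hqz⟩)
  rw [Finset.card_erase_of_mem hy] at h1
  have : 0 < A.card := Finset.card_pos.2 ⟨y, hy⟩
  omega

/-- An antichain with at most `w` elements is the range of a function on `Fin w`. -/
theorem exists_enum {V : Type} (A : Finset V) {w : ℕ} (hA : A.card ≤ w) :
    ∃ f : Fin w → Option V, (∀ a t, f a = some t → t ∈ A) ∧ ∀ t ∈ A, ∃ a, f a = some t := by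
  refine ⟨fun a => A.toList[a.val]?, ?_, ?_⟩
  · intro a t h
    have := List.mem_of_getElem? h
    exact Finset.mem_toList.1 this
  · intro t ht
    obtain ⟨i, hi, hit⟩ := List.getElem_of_mem (Finset.mem_toList.2 ht)
    have hi' : i < w := lt_of_lt_of_le (by simpa using hi) hA
    refine ⟨⟨i, hi'⟩, ?_⟩
    show A.toList[i]? = some t
    rw [List.getElem?_eq_getElem hi, hit]

theorem out_basis {D : Cl n} {w : ℕ} {v : Fin n} {R : Cl n} (h : Valid D w v R) (q : Fin n)
    (hq : q ≤ v) : ∃ f : Fin w → Option (Fin n), (∀ a t, f a = some t → t < q ∧ R q t) ∧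
      ∀ y, y < q → R q y → ∃ a t, f a = some t ∧ R t y := by
  obtain ⟨A, hA, hA', hA''⟩ := exists_basis R (Finset.univ.filter (fun y => y < q ∧ R q y))
    h.refl (by
      intro x hx y hy z hz h1 h2
      refine h.tr x y z ?_ h1 h2
      have := (Finset.mem_filter.1 hy).2.1
      exact (lt_of_lt_of_le this hq).ne)
  obtain ⟨f, hf1, hf2⟩ := exists_enum A (h.wid A hA' (by
    intro x hx
    have := (Finset.mem_filter.1 (hA hx)).2.1
    exact lt_of_lt_of_le this hq))
  refine ⟨f, ?_, ?_⟩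
  · intro a t ht
    exact (Finset.mem_filter.1 (hA (hf1 a t ht))).2
  · intro y hy hR
    obtain ⟨t, ht, hty⟩ := hA'' y (Finset.mem_filter.2 ⟨Finset.mem_univ _, hy, hR⟩)
    obtain ⟨a, ha⟩ := hf2 t ht
    exact ⟨a, t, ha, hty⟩

theorem in_basis {D : Cl n} {w : ℕ} {v : Fin n} {R : Cl n} (h : Valid D w v R) (q : Fin n)
    (hq : q ≤ v) : ∃ f : Fin w → Option (Fin n), (∀ a t, f a = some t → t < q ∧ R t q) ∧
      ∀ y, y < q → R y q → ∃ a t, f a = some t ∧ R y t := by
  obtain ⟨A, hA, hA', hA''⟩ := exists_basis (fun x y => R y x)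
    (Finset.univ.filter (fun y => y < q ∧ R y q)) h.refl (by
      intro x hx y hy z hz h1 h2
      refine h.tr z y x ?_ h2 h1
      have := (Finset.mem_filter.1 hy).2.1
      exact (lt_of_lt_of_le this hq).ne)
  obtain ⟨f, hf1, hf2⟩ := exists_enum A (h.wid A (fun x hx y hy hxy => hA' y hy x hx hxy.symm)
    (by
      intro x hx
      have := (Finset.mem_filter.1 (hA hx)).2.1
      exact lt_of_lt_of_le this hq))
  refine ⟨f, ?_, ?_⟩
  · intro a t ht
    exact (Finset.mem_filter.1 (hA (hf1 a t ht))).2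
  · intro y hy hR
    obtain ⟨t, ht, hty⟩ := hA'' y (Finset.mem_filter.2 ⟨Finset.mem_univ _, hy, hR⟩)
    obtain ⟨a, ha⟩ := hf2 t ht
    exact ⟨a, t, ha, hty⟩

/-- Codes of states. -/
abbrev Code (n w : ℕ) : Type :=
  Fin n × (Fin n → Fin w → Option (Fin n)) × (Fin n → Fin w → Option (Fin n))

def gen {w : ℕ} (c : Code n w) : Cl n := fun x y =>
  x < c.1 ∧ y < c.1 ∧ ((∃ a, c.2.1 x a = some y) ∨ ∃ a, c.2.2 y a = some x)

def dec {w : ℕ} (c : Code n w) : Fin n × Cl n :=
  (c.1, fun x y => x = y ∨ (x < c.1 ∧ y < c.1 ∧ Relation.ReflTransGen (gen c) x y) ∨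
    (x = c.1 ∧ y < c.1 ∧ ∃ a t, c.2.1 c.1 a = some t ∧ t < c.1 ∧
      Relation.ReflTransGen (gen c) t y) ∨
    (y = c.1 ∧ x < c.1 ∧ ∃ a t, c.2.2 c.1 a = some t ∧ t < c.1 ∧
      Relation.ReflTransGen (gen c) x t))

theorem exists_code {D : Cl n} {w : ℕ} {v : Fin n} {R : Cl n} (h : Valid D w v R) :
    ∃ c : Code n w, dec c = (v, R) := by
  have hf : ∀ q : Fin n, ∃ f : Fin w → Option (Fin n), q ≤ v →
      (∀ a t, f a = some t → t < q ∧ R q t) ∧
      ∀ y, y < q → R q y → ∃ a t, f a = some t ∧ R t y := by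
    intro q
    by_cases hq : q ≤ v
    · obtain ⟨f, h1, h2⟩ := out_basis h q hq
      exact ⟨f, fun _ => ⟨h1, h2⟩⟩
    · exact ⟨fun _ => none, fun h => absurd h hq⟩
  have hg : ∀ q : Fin n, ∃ f : Fin w → Option (Fin n), q ≤ v →
      (∀ a t, f a = some t → t < q ∧ R t q) ∧
      ∀ y, y < q → R y q → ∃ a t, f a = some t ∧ R y t := by
    intro q
    by_cases hq : q ≤ v
    · obtain ⟨f, h1, h2⟩ := in_basis h q hq
      exact ⟨f, fun _ => ⟨h1, h2⟩⟩
    · exact ⟨fun _ => none, fun h => absurd h hq⟩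
  choose f hf using hf
  choose g hg using hg
  let c : Code n w := (v, f, g)
  have hgen : ∀ x y, gen c x y → R x y := by
    rintro x y ⟨hx, hy, ⟨a, ha⟩ | ⟨a, ha⟩⟩
    · exact ((hf x (le_of_lt hx)).1 a y ha).2
    · exact ((hg y (le_of_lt hy)).1 a x ha).2
  have hclos : ∀ x y, Relation.ReflTransGen (gen c) x y → x < v → (R x y ∧ y < v) := by
    intro x y hxy hx
    induction hxy with
    | refl => exact ⟨h.refl x, hx⟩
    | tail _ hbc ih =>
      refine ⟨h.tr _ _ _ ?_ ih.1 (hgen _ _ hbc), hbc.2.1⟩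
      exact ih.2.ne
  have hconv : ∀ N : ℕ, ∀ x y : Fin n, x < v → y < v → x.val < N → y.val < N → R x y →
      Relation.ReflTransGen (gen c) x y := by
    intro N
    induction N with
    | zero => intro x y _ _ hx; exact absurd hx (Nat.not_lt_zero _)
    | succ N ih =>
      intro x y hxv hyv hx hy hR
      by_cases hxN : x.val < N
      · by_cases hyN : y.val < N
        · exact ih x y hxv hyv hxN hyN hR
        · have hxy : x < y := by
            show x.val < y.val
            omega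
          obtain ⟨a, t, ha, ht⟩ := (hg y hyv.le).2 x hxy hR
          have ht' := (hg y hyv.le).1 a t ha
          have htN : t.val < N := by
            have : t.val < y.val := ht'.1
            omega
          refine (ih x t hxv (ht'.1.trans hyv) hxN htN ht).tail ?_
          exact ⟨ht'.1.trans hyv, hyv, Or.inr ⟨a, ha⟩⟩
      · by_cases hyN : y.val < N
        · have hxy : y < x := by
            show y.val < x.val
            omega
          obtain ⟨a, t, ha, ht⟩ := (hf x hxv.le).2 y hxy hR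
          have ht' := (hf x hxv.le).1 a t ha
          have htN : t.val < N := by
            have : t.val < x.val := ht'.1
            omega
          refine Relation.ReflTransGen.head ?_ (ih t y (ht'.1.trans hxv) hyv htN hyN ht)
          exact ⟨hxv, ht'.1.trans hxv, Or.inl ⟨a, ha⟩⟩
        · have : x = y := Fin.ext (by omega)
          rw [this]
  refine ⟨c, ?_⟩
  show (v, _) = (v, R)
  congr 1
  funext x y
  apply propext
  constructor
  · rintro (rfl | ⟨hx, hy, hxy⟩ | ⟨rfl, hy, a, t, ha, ht, hty⟩ | ⟨rfl, hx, a, t, ha, ht, hxt⟩)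
    · exact h.refl _
    · exact (hclos x y hxy hx).1
    · exact h.tr _ t _ (ne_of_lt ht) ((hf _ le_rfl).1 a t ha).2 (hclos t y hty ht).1
    · exact h.tr _ t _ (ne_of_lt ht) (hclos x t hxt hx).1 ((hg _ le_rfl).1 a t ha).2
  · intro hR
    by_cases hxy : x = y
    · exact Or.inl hxy
    rcases h.out x y hR with h' | ⟨hx, hy⟩
    · exact Or.inl h'
    · rcases eq_or_lt_of_le hx with rfl | hx
      · have hy' : y < x := lt_of_le_of_ne hy (Ne.symm hxy)
        obtain ⟨a, t, ha, ht⟩ := (hf x le_rfl).2 y hy' hR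
        have ht' := (hf x le_rfl).1 a t ha
        exact Or.inr (Or.inr (Or.inl ⟨rfl, hy', a, t, ha, ht'.1,
          hconv n t y ht'.1 hy' t.2 y.2 ht⟩))
      · rcases eq_or_lt_of_le hy with rfl | hy
        · obtain ⟨a, t, ha, ht⟩ := (hg y le_rfl).2 x hx hR
          have ht' := (hg y le_rfl).1 a t ha
          exact Or.inr (Or.inr (Or.inr ⟨rfl, hx, a, t, ha, ht'.1,
            hconv n x t hx ht'.1 x.2 t.2 ht⟩))
        · exact Or.inr (Or.inl ⟨hx, hy, hconv n x y hx hy x.2 y.2 hR⟩)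

theorem card_states (D : Cl n) (w : ℕ) :
    (Finset.univ.filter (fun s : Fin n × Cl n => Valid D w s.1 s.2)).card ≤
      n * (n + 1) ^ (2 * w * n) := by
  have h1 : (Finset.univ.filter (fun s : Fin n × Cl n => Valid D w s.1 s.2)) ⊆
      (Finset.univ : Finset (Code n w)).image dec := by
    rintro ⟨v, R⟩ hs
    obtain ⟨c, hc⟩ := exists_code (Finset.mem_filter.1 hs).2
    exact Finset.mem_image.2 ⟨c, Finset.mem_univ _, hc⟩
  refine (Finset.card_le_card h1).trans (Finset.card_image_le.trans ?_)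
  have : (Finset.univ : Finset (Code n w)).card = n * (((n + 1) ^ w) ^ n * ((n + 1) ^ w) ^ n) := by
    simp [Code, Finset.card_univ, Fintype.card_prod, Fintype.card_pi]
  rw [this]
  apply le_of_eq
  congr 1
  rw [← pow_mul, ← pow_add]
  congr 1
  ring

/-- The bound for labelled derivations. -/
theorem labelled_bound {k w : ℕ} (hkw : k = w + 1) {D : Cl n} (hn : 0 < n)
    (hD : ∀ a, ¬ D a a)
    (hdil : ∀ R : Cl n, (∀ x, R x x) → (∀ x y z, R x y → R y z → R x z) →
      (∀ x y, R x y → ¬ D x y) → ∃ A : Finset (Fin n), IsAnti R A ∧ A.card = k) :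
    ∃ l m, Drv k n l m ∧ m ≤ (n * (n * (2 * n)) + 2 * n + 1) * (n * (n + 1) ^ (2 * w * n)) ∧
      Av l D := by
  obtain ⟨l, m, h1, h2, h3⟩ := process (K := n * (n * (2 * n)) + 2 * n + 1) (k := k)
    (Finset.univ.filter (fun s : Fin n × Cl n => Valid D w s.1 s.2)) (rk D)
    (fun s => F D s.1 s.2) (by
      rintro ⟨v, R⟩ hs l m hl hav
      have hv := (Finset.mem_filter.1 hs).2
      refine main_step hkw hD hdil hv hl ?_
      intro t ht hst
      exact hav t (Finset.mem_filter.2 ⟨Finset.mem_univ _, ht⟩) hst)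
  refine ⟨l, m, h1, h2.trans (Nat.mul_le_mul_left _ (card_states D w)), ?_⟩
  have h0 : Valid D w (⟨0, hn⟩ : Fin n) (fun x y => x = y) := by
    refine ⟨fun _ => rfl, fun _ _ h => Or.inl h, ?_, ?_, ?_⟩
    · rintro x y rfl
      exact hD _
    · rintro x y z _ rfl rfl
      rfl
    · intro A _ hA
      have : A = ∅ := by
        rw [Finset.eq_empty_iff_forall_notMem]
        intro x hx
        have := hA x hx
        exact absurd this (Nat.not_lt_zero _)
      rw [this]
      simp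
  have h4 := h3 (⟨0, hn⟩, fun x y => x = y) (Finset.mem_filter.2 ⟨Finset.mem_univ _, h0⟩)
  refine h4.le ?_
  rintro a b ⟨g1, g2 | ⟨g2, g3, -⟩⟩
  · exact g2
  · exfalso
    apply g1
    have ha : a.val = 0 := Nat.le_zero.1 g2
    have hb : b.val = 0 := Nat.le_zero.1 g3
    exact Fin.ext (ha.trans hb.symm)

end

end HJ71
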