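import Mathlib

/-!
Digraphs, directed Hajós joins and identifications, constructions and their length
(problem MP_522b4f_co).
-/

namespace HJ71

/-- A finite digraph: no loops, no parallel arcs, opposite arcs are allowed. -/
structure Dig where
  V : Type
  fin : Finite V
  adj : V → V → Prop
  irr : ∀ v, ¬ adj v v

/-- A copy of the complete digraph on `k` vertices. -/
def IsComplete (k : ℕ) (D : Dig) : Prop :=
  Nat.card D.V = k ∧ ∀ x y, D.adj x y ↔ x ≠ y

/-- `C` is (a copy of) the Hajós join of disjoint copies of `A` and `B` along the arcs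
`u₁v₁` of `A` and `v₂u₂` of `B`: both arcs are removed, `v₁` and `v₂` are merged and the arc
`u₁u₂` is added. The injections `f` and `g` embed the two vertex sets. -/
def IsJoin (A B C : Dig) : Prop :=
  ∃ (u₁ v₁ : A.V) (v₂ u₂ : B.V) (f : A.V → C.V) (g : B.V → C.V),
    A.adj u₁ v₁ ∧ B.adj v₂ u₂ ∧ Function.Injective f ∧ Function.Injective g ∧
    (∀ a b, f a = g b ↔ (a = v₁ ∧ b = v₂)) ∧
    (∀ x, (∃ a, f a = x) ∨ ∃ b, g b = x) ∧
    ∀ x y, C.adj x y ↔
      (∃ a a', f a = x ∧ f a' = y ∧ A.adj a a' ∧ ¬ (a = u₁ ∧ a' = v₁)) ∨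
      (∃ b b', g b = x ∧ g b' = y ∧ B.adj b b' ∧ ¬ (b = v₂ ∧ b' = u₂)) ∨
      (x = f u₁ ∧ y = g u₂)

/-- `C` is (a copy of) the digraph obtained from `A` by identification of the non-empty
independent set `I`. -/
def IsIdent (A C : Dig) : Prop :=
  ∃ (I : Set A.V) (f : A.V → C.V),
    I.Nonempty ∧ (∀ a ∈ I, ∀ b ∈ I, ¬ A.adj a b) ∧ Function.Surjective f ∧
    (∀ a b, f a = f b ↔ (a = b ∨ (a ∈ I ∧ b ∈ I))) ∧
    ∀ x y, C.adj x y ↔ ∃ a b, f a = x ∧ f b = y ∧ A.adj a b

/-- `Steps k l m`: the list `l` (latest term first) is a Hajós-`k`-construction sequence in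
which exactly `m` of the terms are obtained by an operation (join or identification); the
other terms are copies of the complete digraph on `k` vertices. -/
inductive Steps (k : ℕ) : List Dig → ℕ → Prop
  | nil : Steps k [] 0
  | base {l : List Dig} {m : ℕ} (D : Dig) :
      Steps k l m → IsComplete k D → Steps k (D :: l) m
  | join {l : List Dig} {m : ℕ} (A B C : Dig) :
      Steps k l m → A ∈ l → B ∈ l → IsJoin A B C → Steps k (C :: l) (m + 1)
  | ident {l : List Dig} {m : ℕ} (A C : Dig) :
      Steps k l m → A ∈ l → IsIdent A C → Steps k (C :: l) (m + 1)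

/-- `H` is isomorphic to the last term of a Hajós-`k`-construction with at most `L`
operations. -/
def ConstructibleIn (k L : ℕ) (H : Dig) : Prop :=
  ∃ (T : Dig) (l : List Dig) (m : ℕ), Steps k (T :: l) m ∧ m ≤ L ∧
    ∃ e : T.V ≃ H.V, ∀ x y, T.adj x y ↔ H.adj (e x) (e y)

/-- `H` is (a copy of) a subdigraph of `D`. -/
def IsSub (H D : Dig) : Prop :=
  ∃ φ : H.V → D.V, Function.Injective φ ∧ ∀ x y, H.adj x y → D.adj (φ x) (φ y)

/-- The subdigraph induced by `S` has a directed cycle. -/
def HasCycle (D : Dig) (S : Set D.V) : Prop :=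
  ∃ x, Relation.TransGen (fun a b => a ∈ S ∧ b ∈ S ∧ D.adj a b) x x

/-- There is a colouring with `w` colours in which no colour class has a directed cycle. -/
def Dicolorable (D : Dig) (w : ℕ) : Prop :=
  ∃ c : D.V → Fin w, ∀ i, ¬ HasCycle D {v | c v = i}

/-- The dichromatic number. -/
noncomputable def dichromatic (D : Dig) : ℕ := sInf {w | Dicolorable D w}

end HJ71
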