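import Mathlib

/-!
Dilworth's theorem for a preorder on a finite type (proof of Galvin).
-/

namespace HJ71

/-- `A` is an antichain for the relation `R`. -/
def IsAnti {V : Type} (R : V → V → Prop) (A : Finset V) : Prop :=
  ∀ x ∈ A, ∀ y ∈ A, x ≠ y → ¬ R x y

theorem dilworth_aux {V : Type} [DecidableEq V] (R : V → V → Prop) (hr : ∀ x, R x x)
    (ht : ∀ x y z, R x y → R y z → R x z) :
    ∀ (s : Finset V) (w : ℕ), (∀ A ⊆ s, IsAnti R A → A.card ≤ w) →
      ∃ c : V → ℕ, (∀ x ∈ s, c x < w) ∧ ∀ x ∈ s, ∀ y ∈ s, c x = c y → R x y ∨ R y x := by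
  classical
  intro s
  induction s using Finset.strongInduction with
  | _ s ih =>
  intro w hw
  rcases s.eq_empty_or_nonempty with rfl | hne
  · exact ⟨fun _ => 0, by simp, by simp⟩
  -- a maximal element
  obtain ⟨a, has, hamax⟩ : ∃ a ∈ s, ∀ y ∈ s, R a y → R y a := by
    obtain ⟨a, ha, hmax⟩ := Finset.exists_max_image s (fun x => (s.filter (fun y => R y x)).card) hne
    refine ⟨a, ha, fun y hy hay => ?_⟩
    by_contra hya
    have h1 := hmax y hy
    have h2 : (s.filter (fun t => R t a)) ⊂ (s.filter (fun t => R t y)) := by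
      rw [Finset.ssubset_iff_of_subset]
      · exact ⟨y, by simp [hy, hr], by simp [hya]⟩
      · intro t ht'
        rw [Finset.mem_filter] at ht' ⊢
        exact ⟨ht'.1, ht _ _ _ ht'.2 hay⟩
    have h3 := Finset.card_lt_card h2
    omega
  -- maximal antichain size in `s.erase a`
  obtain ⟨B, hB, hBmax⟩ := Finset.exists_max_image
    ((s.erase a).powerset.filter (fun A => IsAnti R A)) Finset.card
    ⟨∅, Finset.mem_filter.2 ⟨Finset.mem_powerset.2 (Finset.empty_subset _), by
      intro x hx
      simp at hx⟩⟩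
  rw [Finset.mem_filter, Finset.mem_powerset] at hB
  set m := B.card with hm
  have hmax : ∀ A ⊆ s.erase a, IsAnti R A → A.card ≤ m := fun A hA hA' =>
    hBmax A (by rw [Finset.mem_filter, Finset.mem_powerset]; exact ⟨hA, hA'⟩)
  obtain ⟨c, hc1, hc2⟩ := ih (s.erase a) (Finset.erase_ssubset has) m hmax
  -- every antichain of size `m` meets every class
  have hmeet : ∀ A ⊆ s.erase a, IsAnti R A → A.card = m → ∀ i < m, ∃ x ∈ A, c x = i := by
    intro A hA hA' hAm i hi
    have hinj : Set.InjOn c (A : Set V) := by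
      intro x hx y hy hxy
      by_contra hne
      rcases hc2 x (hA hx) y (hA hy) hxy with h | h
      · exact hA' x hx y hy hne h
      · exact hA' y hy x hx (Ne.symm hne) h
    have himg : A.image c = Finset.range m := by
      apply Finset.eq_of_subset_of_card_le
      · intro j hj
        obtain ⟨x, hx, rfl⟩ := Finset.mem_image.1 hj
        exact Finset.mem_range.2 (hc1 x (hA hx))
      · rw [Finset.card_range, Finset.card_image_of_injOn hinj, hAm]
    have : i ∈ A.image c := by rw [himg]; exact Finset.mem_range.2 hi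
    obtain ⟨x, hx, hxi⟩ := Finset.mem_image.1 this
    exact ⟨x, hx, hxi⟩
  -- the elements lying in an antichain of size `m`
  let M : V → Prop := fun x => ∃ A ⊆ s.erase a, IsAnti R A ∧ A.card = m ∧ x ∈ A
  have hMs : ∀ x, M x → x ∈ s.erase a := by
    rintro x ⟨A, hA, -, -, hx⟩
    exact hA hx
  have htop : ∀ i < m, ∃ x, M x ∧ c x = i ∧ ∀ y, M y → c y = i → R y x := by
    intro i hi
    obtain ⟨x0, hx0, hx0i⟩ := hmeet B hB.1 hB.2 rfl i hi
    let Ci := (s.erase a).filter (fun x => M x ∧ c x = i)
    have hCi : Ci.Nonempty := ⟨x0, by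
      rw [Finset.mem_filter]
      exact ⟨hB.1 hx0, ⟨B, hB.1, hB.2, rfl, hx0⟩, hx0i⟩⟩
    obtain ⟨x, hx, hxmax⟩ := Finset.exists_max_image Ci
      (fun x => (Ci.filter (fun y => R y x)).card) hCi
    have hx' := Finset.mem_filter.1 hx
    refine ⟨x, hx'.2.1, hx'.2.2, fun y hy hyi => ?_⟩
    have hyC : y ∈ Ci := Finset.mem_filter.2 ⟨hMs y hy, hy, hyi⟩
    rcases hc2 y (hMs y hy) x hx'.1 (by rw [hyi, hx'.2.2]) with h | h
    · exact h
    · by_contra hyx
      have h2 : (Ci.filter (fun t => R t x)) ⊂ (Ci.filter (fun t => R t y)) := by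
        rw [Finset.ssubset_iff_of_subset]
        · exact ⟨y, by simp [hyC, hr], by simp [hyx]⟩
        · intro t ht'
          rw [Finset.mem_filter] at ht' ⊢
          exact ⟨ht'.1, ht _ _ _ ht'.2 h⟩
      have h3 := Finset.card_lt_card h2
      have h4 := hxmax y hyC
      omega
  choose X hX1 hX2 hX3 using htop
  by_cases hcase : ∃ i, ∃ hi : i < m, R (X i hi) a
  · obtain ⟨i, hi, hia⟩ := hcase
    let K := s.filter (fun y => y = a ∨ (y ≠ a ∧ c y = i ∧ R y (X i hi)))
    have haK : a ∈ K := by simp [K, has]
    have hss : s \ K ⊂ s := by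
      rw [Finset.ssubset_iff_of_subset Finset.sdiff_subset]
      exact ⟨a, has, by simp [haK]⟩
    have hm0 : 0 < m := by omega
    have hanti : ∀ A ⊆ s \ K, IsAnti R A → A.card ≤ m - 1 := by
      intro A hA hA'
      have hAs : A ⊆ s.erase a := by
        intro x hx
        have := hA hx
        rw [Finset.mem_sdiff] at this
        refine Finset.mem_erase.2 ⟨?_, this.1⟩
        rintro rfl
        exact this.2 haK
      have h1 := hmax A hAs hA'
      by_contra hcon
      have h2 : A.card = m := by omega
      obtain ⟨x, hx, hxi⟩ := hmeet A hAs hA' h2 i hi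
      have h3 : R x (X i hi) := hX3 i hi x ⟨A, hAs, hA', h2, hx⟩ hxi
      have h4 := hA hx
      rw [Finset.mem_sdiff] at h4
      apply h4.2
      rw [Finset.mem_filter]
      exact ⟨h4.1, Or.inr ⟨(Finset.mem_erase.1 (hAs hx)).1, hxi, h3⟩⟩
    obtain ⟨c', hc'1, hc'2⟩ := ih (s \ K) hss (m - 1) hanti
    have hmw : m ≤ w := by
      have := hw B (hB.1.trans (Finset.erase_subset _ _)) hB.2
      exact this
    refine ⟨fun x => if x ∈ K then m - 1 else c' x, ?_, ?_⟩
    · intro x hx
      by_cases hxK : x ∈ K
      · simp only [hxK, if_true]; omega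
      · simp only [hxK, if_false]
        have := hc'1 x (Finset.mem_sdiff.2 ⟨hx, hxK⟩)
        omega
    · intro x hx y hy hxy
      by_cases hxK : x ∈ K
      · by_cases hyK : y ∈ K
        · -- both in the chain K
          have hx2 := (Finset.mem_filter.1 hxK).2
          have hy2 := (Finset.mem_filter.1 hyK).2
          rcases hx2 with rfl | ⟨hxa, hxi, hxX⟩
          · rcases hy2 with rfl | ⟨hya, hyi, hyX⟩
            · exact Or.inl (hr _)
            · exact Or.inr (ht _ _ _ hyX hia)
          · rcases hy2 with rfl | ⟨hya, hyi, hyX⟩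
            · exact Or.inl (ht _ _ _ hxX hia)
            · exact hc2 x (Finset.mem_erase.2 ⟨hxa, hx⟩) y (Finset.mem_erase.2 ⟨hya, hy⟩)
                (by rw [hxi, hyi])
        · simp only [hxK, hyK, if_true, if_false] at hxy
          have := hc'1 y (Finset.mem_sdiff.2 ⟨hy, hyK⟩)
          omega
      · by_cases hyK : y ∈ K
        · simp only [hxK, hyK, if_true, if_false] at hxy
          have := hc'1 x (Finset.mem_sdiff.2 ⟨hx, hxK⟩)
          omega
        · simp only [hxK, hyK, if_false] at hxy
          exact hc'2 x (Finset.mem_sdiff.2 ⟨hx, hxK⟩) y (Finset.mem_sdiff.2 ⟨hy, hyK⟩) hxy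
  · push Not at hcase
    -- the antichain of the tops together with `a`
    have hXinj : ∀ i hi j hj, X i hi = X j hj → i = j := by
      intro i hi j hj h
      rw [← hX2 i hi, ← hX2 j hj, h]
    have hXanti : ∀ i hi j hj, i ≠ j → ¬ R (X i hi) (X j hj) := by
      intro i hi j hj hij hR
      obtain ⟨A, hA, hA', hAm, hxA⟩ := hX1 j hj
      obtain ⟨y, hy, hyi⟩ := hmeet A hA hA' hAm i hi
      have h1 : R y (X i hi) := hX3 i hi y ⟨A, hA, hA', hAm, hy⟩ hyi
      have h2 : y ≠ X j hj := by
        rintro rfl
        exact hij (hyi.symm.trans (hX2 j hj))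
      exact hA' y hy _ hxA h2 (ht _ _ _ h1 hR)
    let T : Finset V := (Finset.univ : Finset (Fin m)).image (fun i => X i.1 i.2)
    have hTcard : T.card = m := by
      rw [Finset.card_image_of_injective]
      · simp
      · intro i j hij
        exact Fin.ext (hXinj _ _ _ _ hij)
    have haT : a ∉ T := by
      intro h
      obtain ⟨i, -, hi⟩ := Finset.mem_image.1 h
      have := hMs _ (hX1 i.1 i.2)
      rw [hi] at this
      simp at this
    have hanti : IsAnti R (insert a T) := by
      intro x hx y hy hxy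
      rcases Finset.mem_insert.1 hx with rfl | hx
      · rcases Finset.mem_insert.1 hy with rfl | hy
        · exact absurd rfl hxy
        · obtain ⟨i, -, rfl⟩ := Finset.mem_image.1 hy
          intro h
          exact hcase i.1 i.2 (hamax _ (Finset.mem_of_mem_erase (hMs _ (hX1 i.1 i.2))) h)
      · obtain ⟨i, -, rfl⟩ := Finset.mem_image.1 hx
        rcases Finset.mem_insert.1 hy with rfl | hy
        · exact hcase i.1 i.2
        · obtain ⟨j, -, rfl⟩ := Finset.mem_image.1 hy
          apply hXanti
          intro h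
          apply hxy
          have : i = j := Fin.ext h
          rw [this]
    have hsub : insert a T ⊆ s := by
      intro x hx
      rcases Finset.mem_insert.1 hx with rfl | hx
      · exact has
      · obtain ⟨i, -, rfl⟩ := Finset.mem_image.1 hx
        exact Finset.mem_of_mem_erase (hMs _ (hX1 i.1 i.2))
    have hmw := hw _ hsub hanti
    rw [Finset.card_insert_of_notMem haT, hTcard] at hmw
    refine ⟨fun x => if x = a then m else c x, ?_, ?_⟩
    · intro x hx
      by_cases hxa : x = a
      · simp only [hxa, if_true]; omega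
      · simp only [hxa, if_false]
        have := hc1 x (Finset.mem_erase.2 ⟨hxa, hx⟩)
        omega
    · intro x hx y hy hxy
      by_cases hxa : x = a
      · by_cases hya : y = a
        · rw [hxa, hya]; exact Or.inl (hr _)
        · simp only [hxa, hya, if_true, if_false] at hxy
          have := hc1 y (Finset.mem_erase.2 ⟨hya, hy⟩)
          omega
      · by_cases hya : y = a
        · simp only [hxa, hya, if_true, if_false] at hxy
          have := hc1 x (Finset.mem_erase.2 ⟨hxa, hx⟩)
          omega
        · simp only [hxa, hya, if_false] at hxy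
          exact hc2 x (Finset.mem_erase.2 ⟨hxa, hx⟩) y (Finset.mem_erase.2 ⟨hya, hy⟩) hxy

/-- Dilworth: a preorder on a finite type with all antichains of size at most `w` is a union
of `w` chains. -/
theorem dilworth {V : Type} [Finite V] (R : V → V → Prop) (hr : ∀ x, R x x)
    (ht : ∀ x y z, R x y → R y z → R x z) (w : ℕ)
    (hw : ∀ A : Finset V, IsAnti R A → A.card ≤ w) :
    ∃ c : V → Fin w, ∀ x y, c x = c y → R x y ∨ R y x := by
  classical
  cases nonempty_fintype V
  obtain ⟨c, h1, h2⟩ := dilworth_aux R hr ht Finset.univ w (fun A _ hA => hw A hA)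
  refine ⟨fun x => ⟨c x, h1 x (Finset.mem_univ _)⟩, fun x y hxy => ?_⟩
  exact h2 x (Finset.mem_univ _) y (Finset.mem_univ _) (by simpa using congrArg Fin.val hxy)

end HJ71
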