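import Pool.Agent.HJ71.Lab
import Pool.Agent.HJ71.Dil

/-!
Short labelled derivations: the states are the preorders of width less than `k` on an initial
segment, together with a quasi-transitive last vertex.
-/

namespace HJ71

open scoped Classical in
section

variable {n : ℕ}

/-- Some derived clause is contained in `E`. -/
def Av (l : List (Cl n)) (E : Cl n) : Prop := ∃ E' ∈ l, ∀ a b, E' a b → E a b

theorem Av.sub {l l' : List (Cl n)} {E : Cl n} (h : Av l E) (hl : ∀ C ∈ l, C ∈ l') : Av l' E := by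
  obtain ⟨E', h1, h2⟩ := h
  exact ⟨E', hl _ h1, h2⟩

theorem Av.le {l : List (Cl n)} {E E' : Cl n} (h : Av l E) (hE : ∀ a b, E a b → E' a b) :
    Av l E' := by
  obtain ⟨C, h1, h2⟩ := h
  exact ⟨C, h1, fun a b hab => hE _ _ (h2 a b hab)⟩

theorem Av.head {l : List (Cl n)} {E : Cl n} : Av (E :: l) E :=
  ⟨E, List.mem_cons_self, fun _ _ h => h⟩

/-- The clause `E` with the additional arc `xy`. -/
def add (E : Cl n) (x y : Fin n) : Cl n := fun a b => E a b ∨ (a = x ∧ b = y)

theorem av_res {k m : ℕ} {l : List (Cl n)} (h : Drv k n l m) (E : Cl n) (hE : ∀ a, ¬ E a a)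
    (x y z : Fin n) (h1 : Av l (add E x y)) (h2 : Av l (add E y z)) (hxz : E x z) :
    Drv k n (E :: l) (m + 1) := by
  obtain ⟨E1, g1, g2⟩ := h1
  obtain ⟨E2, g3, g4⟩ := h2
  exact Drv.res E E1 E2 x y z h g1 g3 g2 g4 hxz hE

theorem kill {k : ℕ} (E : Cl n) (hE : ∀ a, ¬ E a a) (B : Finset (Fin n × Fin n)) :
    ∀ {m : ℕ} {l : List (Cl n)}, Drv k n l m → (∀ b ∈ B, b.1 ≠ b.2) →
      Av l (fun a b => E a b ∨ (a, b) ∈ B) →
      (∀ b ∈ B, (∃ z, E b.1 z ∧ Av l (add E b.2 z)) ∨ (∃ z, E z b.2 ∧ Av l (add E z b.1))) →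
      ∃ l' m', Drv k n l' m' ∧ (∀ C ∈ l, C ∈ l') ∧ m' ≤ m + B.card ∧ Av l' E := by
  induction B using Finset.induction_on with
  | empty =>
    intro m l h _ h0 _
    refine ⟨l, m, h, fun C hC => hC, by simp, h0.le ?_⟩
    rintro a b (hab | hab)
    · exact hab
    · simp at hab
  | insert b B hb ih =>
    intro m l h hne h0 hk
    let E' : Cl n := fun a c => E a c ∨ (a, c) ∈ B
    have hE' : ∀ a, ¬ E' a a := by
      rintro a (h | h)
      · exact hE a h
      · exact hne (a, a) (Finset.mem_insert_of_mem h) rfl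
    have h1 : Av l (add E' b.1 b.2) := by
      refine h0.le ?_
      rintro a c (hac | hac)
      · exact Or.inl (Or.inl hac)
      · rcases Finset.mem_insert.1 hac with h | h
        · exact Or.inr ⟨by rw [← h], by rw [← h]⟩
        · exact Or.inl (Or.inr h)
    have h2 : Drv k n (E' :: l) (m + 1) := by
      rcases hk b (Finset.mem_insert_self _ _) with ⟨z, hz1, hz2⟩ | ⟨z, hz1, hz2⟩
      · refine av_res h E' hE' b.1 b.2 z h1 (hz2.le ?_) (Or.inl hz1)
        rintro a c (hac | hac)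
        · exact Or.inl (Or.inl hac)
        · exact Or.inr hac
      · refine av_res h E' hE' z b.1 b.2 (hz2.le ?_) h1 (Or.inl hz1)
        rintro a c (hac | hac)
        · exact Or.inl (Or.inl hac)
        · exact Or.inr hac
    obtain ⟨l', m', g1, g2, g3, g4⟩ := ih h2 (fun c hc => hne c (Finset.mem_insert_of_mem hc))
      Av.head (by
        intro c hc
        rcases hk c (Finset.mem_insert_of_mem hc) with ⟨z, hz1, hz2⟩ | ⟨z, hz1, hz2⟩
        · exact Or.inl ⟨z, hz1, hz2.sub (fun C hC => List.mem_cons_of_mem _ hC)⟩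
        · exact Or.inr ⟨z, hz1, hz2.sub (fun C hC => List.mem_cons_of_mem _ hC)⟩)
    refine ⟨l', m', g1, fun C hC => g2 C (List.mem_cons_of_mem _ hC), ?_, g4⟩
    rw [Finset.card_insert_of_notMem hb]
    omega

/-- Deriving all items of a finite family. -/
theorem all_items {k c : ℕ} {ι : Type} (I : Finset ι) (G : ι → Cl n) (l0 : List (Cl n))
    (h : ∀ i ∈ I, ∀ l m, (∀ C ∈ l0, C ∈ l) → Drv k n l m →
      ∃ l' m', Drv k n l' m' ∧ (∀ C ∈ l, C ∈ l') ∧ m' ≤ m + c ∧ Av l' (G i)) :
    ∀ m0, Drv k n l0 m0 → ∃ l' m', Drv k n l' m' ∧ (∀ C ∈ l0, C ∈ l') ∧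
      m' ≤ m0 + c * I.card ∧ ∀ i ∈ I, Av l' (G i) := by
  intro m0 h0
  induction I using Finset.induction_on with
  | empty => exact ⟨l0, m0, h0, fun C hC => hC, by simp, by simp⟩
  | insert i I hi ih =>
    obtain ⟨l', m', g1, g2, g3, g4⟩ := ih (fun j hj => h j (Finset.mem_insert_of_mem hj))
    obtain ⟨l'', m'', f1, f2, f3, f4⟩ := h i (Finset.mem_insert_self _ _) l' m' g2 g1
    refine ⟨l'', m'', f1, fun C hC => f2 C (g2 C hC), ?_, ?_⟩
    · rw [Finset.card_insert_of_notMem hi]
      have : c * (I.card + 1) = c * I.card + c := by ring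
      omega
    · intro j hj
      rcases Finset.mem_insert.1 hj with rfl | hj
      · exact f4
      · exact (g4 j hj).sub f2

/-- Processing a finite set of states in decreasing order of rank. -/
theorem process {k K : ℕ} {ι α : Type} [LinearOrder α] (S : Finset ι) (rank : ι → α)
    (C : ι → Cl n)
    (step : ∀ s ∈ S, ∀ l m, Drv k n l m → (∀ t ∈ S, rank s < rank t → Av l (C t)) →
      ∃ l' m', Drv k n l' m' ∧ (∀ E ∈ l, E ∈ l') ∧ m' ≤ m + K ∧ Av l' (C s)) :
    ∃ l m, Drv k n l m ∧ m ≤ K * S.card ∧ ∀ s ∈ S, Av l (C s) := by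
  have key : ∀ T : Finset ι, T ⊆ S → (∀ x ∈ T, ∀ t ∈ S, rank x < rank t → t ∈ T) →
      ∃ l m, Drv k n l m ∧ m ≤ K * T.card ∧ ∀ s ∈ T, Av l (C s) := by
    intro T
    induction T using Finset.induction_on_min_value rank with
    | empty => intro _ _; exact ⟨[], 0, Drv.nil, by simp, by simp⟩
    | insert a T haT hmin ih =>
      intro hTS hup
      obtain ⟨l, m, h1, h2, h3⟩ := ih (fun x hx => hTS (Finset.mem_insert_of_mem hx)) (by
        intro x hx t ht hxt
        rcases Finset.mem_insert.1 (hup x (Finset.mem_insert_of_mem hx) t ht hxt) with rfl | h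
        · exact absurd hxt (not_lt.2 (hmin x hx))
        · exact h)
      obtain ⟨l', m', g1, g2, g3, g4⟩ := step a (hTS (Finset.mem_insert_self _ _)) l m h1 (by
        intro t ht hat
        rcases Finset.mem_insert.1 (hup a (Finset.mem_insert_self _ _) t ht hat) with rfl | h
        · exact absurd hat (lt_irrefl _)
        · exact h3 t h)
      refine ⟨l', m', g1, ?_, ?_⟩
      · rw [Finset.card_insert_of_notMem haT]
        have : K * (T.card + 1) = K * T.card + K := by ring
        omega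
      · intro s hs
        rcases Finset.mem_insert.1 hs with rfl | hs
        · exact g4
        · exact (h3 s hs).sub g2
  exact key S (Finset.Subset.refl _) (fun _ _ t ht _ => ht)

/-- The states. -/
structure Valid (D : Cl n) (w : ℕ) (v : Fin n) (R : Cl n) : Prop where
  refl : ∀ x, R x x
  out : ∀ x y, R x y → x = y ∨ (x ≤ v ∧ y ≤ v)
  dis : ∀ x y, R x y → ¬ D x y
  tr : ∀ x y z, y ≠ v → R x y → R y z → R x z
  wid : ∀ A : Finset (Fin n), IsAnti R A → (∀ x ∈ A, x < v) → A.card ≤ w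

/-- The clause of a state. -/
def F (D : Cl n) (v : Fin n) (R : Cl n) : Cl n := fun x y =>
  x ≠ y ∧ (D x y ∨ (x ≤ v ∧ y ≤ v ∧ ¬ R x y))

noncomputable def cnt (E : Cl n) (j : Fin n) : ℕ :=
  (Finset.univ.filter (fun p : Fin n × Fin n => E p.1 p.2 ∧ max p.1 p.2 = j)).card

noncomputable def rk (D : Cl n) (s : Fin n × Cl n) : Lex (Fin n → ℕ) :=
  toLex (fun j => cnt (F D s.1 s.2) j + if j ≤ s.1 then 1 else 0)

theorem cnt_congr {E E' : Cl n} {j : Fin n} (h : ∀ x y, max x y = j → (E x y ↔ E' x y)) :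
    cnt E j = cnt E' j := by
  unfold cnt
  congr 1
  ext ⟨x, y⟩
  simp only [Finset.mem_filter, Finset.mem_univ, true_and]
  constructor
  · rintro ⟨h1, h2⟩; exact ⟨(h x y h2).1 h1, h2⟩
  · rintro ⟨h1, h2⟩; exact ⟨(h x y h2).2 h1, h2⟩

theorem cnt_le {E E' : Cl n} {j : Fin n} (h : ∀ x y, max x y = j → E x y → E' x y) :
    cnt E j ≤ cnt E' j := by
  unfold cnt
  apply Finset.card_le_card
  intro p hp
  simp only [Finset.mem_filter, Finset.mem_univ, true_and] at hp ⊢
  exact ⟨h _ _ hp.2 hp.1, hp.2⟩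

theorem cnt_lt {E E' : Cl n} {j : Fin n} (h : ∀ x y, max x y = j → E x y → E' x y)
    (x y : Fin n) (hxy : max x y = j) (h1 : ¬ E x y) (h2 : E' x y) :
    cnt E j < cnt E' j := by
  unfold cnt
  apply Finset.card_lt_card
  rw [Finset.ssubset_iff_of_subset]
  · refine ⟨(x, y), ?_, ?_⟩
    · simp only [Finset.mem_filter, Finset.mem_univ, true_and]
      exact ⟨h2, hxy⟩
    · simp only [Finset.mem_filter, Finset.mem_univ, true_and]
      exact fun h => h1 h.1
  · intro p hp
    simp only [Finset.mem_filter, Finset.mem_univ, true_and] at hp ⊢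
    exact ⟨h _ _ hp.2 hp.1, hp.2⟩

/-- Delete from `R` (restricted to the vertices up to `q`) all pairs `(t, q)` with `R p t`. -/
def cutIn (R : Cl n) (q p : Fin n) : Cl n := fun x y =>
  x = y ∨ (x ≤ q ∧ y ≤ q ∧ R x y ∧ ¬ (y = q ∧ R p x))

/-- Delete from `R` (restricted to the vertices up to `q`) all pairs `(q, t)` with `R t u`. -/
def cutOut (R : Cl n) (q u : Fin n) : Cl n := fun x y =>
  x = y ∨ (x ≤ q ∧ y ≤ q ∧ R x y ∧ ¬ (x = q ∧ R y u))

theorem valid_cutIn {D : Cl n} (hD : ∀ a, ¬ D a a) {w : ℕ} {v : Fin n} {R : Cl n}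
    (h : Valid D w v R) {q p : Fin n} (hq : q ≤ v) : Valid D w q (cutIn R q p) where
  refl := fun x => Or.inl rfl
  out := by
    rintro x y (rfl | ⟨h1, h2, -⟩)
    · exact Or.inl rfl
    · exact Or.inr ⟨h1, h2⟩
  dis := by
    rintro x y (rfl | ⟨h1, h2, h3, -⟩)
    · exact hD _
    · exact h.dis _ _ h3
  tr := by
    rintro x y z hy (rfl | ⟨h1, h2, h3, h4⟩) h'
    · exact h'
    · rcases h' with rfl | ⟨g1, g2, g3, g4⟩
      · exact Or.inr ⟨h1, h2, h3, h4⟩
      · have hyv : y ≠ v := by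
          rintro rfl
          exact hy (le_antisymm g1 hq)
        by_cases hxz : x = z
        · exact Or.inl hxz
        refine Or.inr ⟨h1, g2, h.tr _ _ _ hyv h3 g3, ?_⟩
        rintro ⟨rfl, hpx⟩
        apply g4
        refine ⟨rfl, h.tr p x y ?_ hpx h3⟩
        rintro rfl
        exact hxz (le_antisymm h1 hq)
  wid := by
    intro A hA hlt
    refine h.wid A ?_ (fun x hx => lt_of_lt_of_le (hlt x hx) hq)
    intro x hx y hy hxy hR
    apply hA x hx y hy hxy
    refine Or.inr ⟨(hlt x hx).le, (hlt y hy).le, hR, ?_⟩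
    rintro ⟨rfl, -⟩
    exact lt_irrefl _ (hlt y hy)

theorem valid_cutOut {D : Cl n} (hD : ∀ a, ¬ D a a) {w : ℕ} {v : Fin n} {R : Cl n}
    (h : Valid D w v R) {q u : Fin n} (hq : q ≤ v) : Valid D w q (cutOut R q u) where
  refl := fun x => Or.inl rfl
  out := by
    rintro x y (rfl | ⟨h1, h2, -⟩)
    · exact Or.inl rfl
    · exact Or.inr ⟨h1, h2⟩
  dis := by
    rintro x y (rfl | ⟨h1, h2, h3, -⟩)
    · exact hD _
    · exact h.dis _ _ h3
  tr := by
    rintro x y z hy (rfl | ⟨h1, h2, h3, h4⟩) h'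
    · exact h'
    · rcases h' with rfl | ⟨g1, g2, g3, g4⟩
      · exact Or.inr ⟨h1, h2, h3, h4⟩
      · have hyv : y ≠ v := by
          rintro rfl
          exact hy (le_antisymm g1 hq)
        by_cases hxz : x = z
        · exact Or.inl hxz
        refine Or.inr ⟨h1, g2, h.tr _ _ _ hyv h3 g3, ?_⟩
        rintro ⟨rfl, hzu⟩
        apply h4
        refine ⟨rfl, h.tr y z u ?_ g3 hzu⟩
        rintro rfl
        exact hxz (le_antisymm hq g2)
  wid := by
    intro A hA hlt
    refine h.wid A ?_ (fun x hx => lt_of_lt_of_le (hlt x hx) hq)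
    intro x hx y hy hxy hR
    apply hA x hx y hy hxy
    refine Or.inr ⟨(hlt x hx).le, (hlt y hy).le, hR, ?_⟩
    rintro ⟨rfl, -⟩
    exact lt_irrefl _ (hlt x hx)

theorem rk_cutIn {D : Cl n} {w : ℕ} {v : Fin n} {R : Cl n}
    (h : Valid D w v R) {q p : Fin n} (hq : q ≤ v) (hp : p < q) (hR : R p q) :
    rk D (v, R) < rk D (q, cutIn R q p) := by
  refine ⟨q, ?_, ?_⟩
  · intro j hj
    show cnt (F D v R) j + (if j ≤ v then 1 else 0) =
      cnt (F D q (cutIn R q p)) j + (if j ≤ q then 1 else 0)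
    have h1 : j ≤ v := hj.le.trans hq
    have h2 : j ≤ q := hj.le
    rw [if_pos h1, if_pos h2]
    congr 1
    apply cnt_congr
    intro x y hxy
    have hx : x < q := lt_of_le_of_lt (le_max_left x y) (hxy ▸ hj)
    have hy : y < q := lt_of_le_of_lt (le_max_right x y) (hxy ▸ hj)
    unfold F cutIn
    constructor
    · rintro ⟨g1, g2 | ⟨g2, g3, g4⟩⟩
      · exact ⟨g1, Or.inl g2⟩
      · refine ⟨g1, Or.inr ⟨hx.le, hy.le, ?_⟩⟩
        rintro (g | ⟨-, -, g, -⟩)
        · exact g1 g
        · exact g4 g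
    · rintro ⟨g1, g2 | ⟨g2, g3, g4⟩⟩
      · exact ⟨g1, Or.inl g2⟩
      · refine ⟨g1, Or.inr ⟨hx.le.trans hq, hy.le.trans hq, ?_⟩⟩
        intro g
        apply g4
        refine Or.inr ⟨hx.le, hy.le, g, ?_⟩
        rintro ⟨rfl, -⟩
        exact lt_irrefl _ hy
  · show cnt (F D v R) q + (if q ≤ v then 1 else 0) <
      cnt (F D q (cutIn R q p)) q + (if q ≤ q then 1 else 0)
    rw [if_pos hq, if_pos le_rfl]
    apply Nat.add_lt_add_right
    apply cnt_lt _ p q (max_eq_right hp.le)
    · rintro ⟨g1, g2 | ⟨g2, g3, g4⟩⟩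
      · exact h.dis _ _ hR g2
      · exact g4 hR
    · refine ⟨hp.ne, Or.inr ⟨hp.le, le_rfl, ?_⟩⟩
      rintro (g | ⟨-, -, -, g⟩)
      · exact hp.ne g
      · exact g ⟨rfl, h.refl p⟩
    · intro x y hxy
      have hx : x ≤ q := (le_max_left x y).trans hxy.le
      have hy : y ≤ q := (le_max_right x y).trans hxy.le
      rintro ⟨g1, g2 | ⟨g2, g3, g4⟩⟩
      · exact ⟨g1, Or.inl g2⟩
      · refine ⟨g1, Or.inr ⟨hx, hy, ?_⟩⟩
        rintro (g | ⟨-, -, g, -⟩)
        · exact g1 g
        · exact g4 g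

theorem rk_cutOut {D : Cl n} {w : ℕ} {v : Fin n} {R : Cl n}
    (h : Valid D w v R) {q u : Fin n} (hq : q ≤ v) (hu : u < q) (hR : R q u) :
    rk D (v, R) < rk D (q, cutOut R q u) := by
  refine ⟨q, ?_, ?_⟩
  · intro j hj
    show cnt (F D v R) j + (if j ≤ v then 1 else 0) =
      cnt (F D q (cutOut R q u)) j + (if j ≤ q then 1 else 0)
    have h1 : j ≤ v := hj.le.trans hq
    have h2 : j ≤ q := hj.le
    rw [if_pos h1, if_pos h2]
    congr 1
    apply cnt_congr
    intro x y hxy
    have hx : x < q := lt_of_le_of_lt (le_max_left x y) (hxy ▸ hj)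
    have hy : y < q := lt_of_le_of_lt (le_max_right x y) (hxy ▸ hj)
    unfold F cutOut
    constructor
    · rintro ⟨g1, g2 | ⟨g2, g3, g4⟩⟩
      · exact ⟨g1, Or.inl g2⟩
      · refine ⟨g1, Or.inr ⟨hx.le, hy.le, ?_⟩⟩
        rintro (g | ⟨-, -, g, -⟩)
        · exact g1 g
        · exact g4 g
    · rintro ⟨g1, g2 | ⟨g2, g3, g4⟩⟩
      · exact ⟨g1, Or.inl g2⟩
      · refine ⟨g1, Or.inr ⟨hx.le.trans hq, hy.le.trans hq, ?_⟩⟩
        intro g
        apply g4
        refine Or.inr ⟨hx.le, hy.le, g, ?_⟩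
        rintro ⟨rfl, -⟩
        exact lt_irrefl _ hx
  · show cnt (F D v R) q + (if q ≤ v then 1 else 0) <
      cnt (F D q (cutOut R q u)) q + (if q ≤ q then 1 else 0)
    rw [if_pos hq, if_pos le_rfl]
    apply Nat.add_lt_add_right
    apply cnt_lt _ q u (max_eq_left hu.le)
    · rintro ⟨g1, g2 | ⟨g2, g3, g4⟩⟩
      · exact h.dis _ _ hR g2
      · exact g4 hR
    · refine ⟨hu.ne', Or.inr ⟨le_rfl, hu.le, ?_⟩⟩
      rintro (g | ⟨-, -, -, g⟩)
      · exact hu.ne' g
      · exact g ⟨rfl, h.refl u⟩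
    · intro x y hxy
      have hx : x ≤ q := (le_max_left x y).trans hxy.le
      have hy : y ≤ q := (le_max_right x y).trans hxy.le
      rintro ⟨g1, g2 | ⟨g2, g3, g4⟩⟩
      · exact ⟨g1, Or.inl g2⟩
      · refine ⟨g1, Or.inr ⟨hx, hy, ?_⟩⟩
        rintro (g | ⟨-, -, g, -⟩)
        · exact g1 g
        · exact g4 g

/-- The context of a step: all states of larger rank are available. -/
def Ctx (D : Cl n) (w : ℕ) (s : Fin n × Cl n) (l : List (Cl n)) : Prop :=
  ∀ t : Fin n × Cl n, Valid D w t.1 t.2 → rk D s < rk D t → Av l (F D t.1 t.2)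

theorem F_irr (D : Cl n) (v : Fin n) (R : Cl n) : ∀ a, ¬ F D v R a a := fun _ h => h.1 rfl

/-- Deriving `F + (p, q)` for a pair `(p, q)` of `R`. -/
theorem in_step {k w : ℕ} {D : Cl n} (hD : ∀ a, ¬ D a a) {v : Fin n} {R : Cl n}
    (hv : Valid D w v R) {l : List (Cl n)} {m : ℕ} (hl : Drv k n l m)
    (hc : Ctx D w (v, R) l) (q : Fin n) (hq : q ≤ v)
    (hR : ∀ a b, R a b → a ≠ b → a < q → b < q → Av l (add (F D v R) a b))
    (p : Fin n) (hp : p < q) (hpq : R p q) :
    ∃ l' m', Drv k n l' m' ∧ (∀ C ∈ l, C ∈ l') ∧ m' ≤ m + n ∧ Av l' (add (F D v R) p q) := by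
  have h1 := hc (q, cutIn R q p) (valid_cutIn hD hv hq) (rk_cutIn hv hq hp hpq)
  let B : Finset (Fin n × Fin n) :=
    (Finset.univ.filter (fun t : Fin n => t < q ∧ t ≠ p ∧ R p t)).image (fun t => (t, q))
  have hBcard : B.card ≤ n := by
    refine Finset.card_image_le.trans ((Finset.card_le_univ _).trans ?_)
    simp
  have hE : ∀ a, ¬ add (F D v R) p q a a := by
    rintro a (h | ⟨h, h'⟩)
    · exact F_irr _ _ _ _ h
    · exact hp.ne (h.symm.trans h')
  suffices H : (∀ b ∈ B, b.1 ≠ b.2) ∧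
      (∀ a b, F D q (cutIn R q p) a b → add (F D v R) p q a b ∨ (a, b) ∈ B) ∧
      (∀ b ∈ B, (∃ z, add (F D v R) p q b.1 z ∧ Av l (add (add (F D v R) p q) b.2 z)) ∨
        (∃ z, add (F D v R) p q z b.2 ∧ Av l (add (add (F D v R) p q) z b.1))) by
    obtain ⟨l', m', g1, g2, g3, g4⟩ := kill (add (F D v R) p q) hE B hl H.1 (h1.le H.2.1) H.2.2
    exact ⟨l', m', g1, g2, by omega, g4⟩
  refine ⟨?_, ?_, ?_⟩
  · intro b hb
    obtain ⟨t, ht, rfl⟩ := Finset.mem_image.1 hb
    exact (Finset.mem_filter.1 ht).2.1.ne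
  · rintro x y ⟨g1, g2 | ⟨g2, g3, g4⟩⟩
    · exact Or.inl (Or.inl ⟨g1, Or.inl g2⟩)
    · by_cases hxy : R x y
      · have : y = q ∧ R p x := by
          by_contra hcon
          exact g4 (Or.inr ⟨g2, g3, hxy, hcon⟩)
        obtain ⟨rfl, hpx⟩ := this
        by_cases hxp : x = p
        · exact Or.inl (Or.inr ⟨hxp, rfl⟩)
        · refine Or.inr (Finset.mem_image.2 ⟨x, ?_, rfl⟩)
          rw [Finset.mem_filter]
          exact ⟨Finset.mem_univ _, lt_of_le_of_ne g2 g1, hxp, hpx⟩
      · exact Or.inl (Or.inl ⟨g1, Or.inr ⟨g2.trans hq, g3.trans hq, hxy⟩⟩)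
  · intro b hb
    obtain ⟨t, ht, rfl⟩ := Finset.mem_image.1 hb
    obtain ⟨-, ht1, ht2, ht3⟩ := Finset.mem_filter.1 ht
    right
    refine ⟨p, Or.inr ⟨rfl, rfl⟩, (hR p t ht3 (Ne.symm ht2) hp ht1).le ?_⟩
    rintro a b (h | h)
    · exact Or.inl (Or.inl h)
    · exact Or.inr h

theorem out_step {k w : ℕ} {D : Cl n} (hD : ∀ a, ¬ D a a) {v : Fin n} {R : Cl n}
    (hv : Valid D w v R) {l : List (Cl n)} {m : ℕ} (hl : Drv k n l m)
    (hc : Ctx D w (v, R) l) (q : Fin n) (hq : q ≤ v)
    (hR : ∀ a b, R a b → a ≠ b → a < q → b < q → Av l (add (F D v R) a b))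
    (u : Fin n) (hu : u < q) (hqu : R q u) :
    ∃ l' m', Drv k n l' m' ∧ (∀ C ∈ l, C ∈ l') ∧ m' ≤ m + n ∧ Av l' (add (F D v R) q u) := by
  have h1 := hc (q, cutOut R q u) (valid_cutOut hD hv hq) (rk_cutOut hv hq hu hqu)
  let B : Finset (Fin n × Fin n) :=
    (Finset.univ.filter (fun t : Fin n => t < q ∧ t ≠ u ∧ R t u)).image (fun t => (q, t))
  have hBcard : B.card ≤ n := by
    refine Finset.card_image_le.trans ((Finset.card_le_univ _).trans ?_)
    simp
  have hE : ∀ a, ¬ add (F D v R) q u a a := by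
    rintro a (h | ⟨h, h'⟩)
    · exact F_irr _ _ _ _ h
    · exact hu.ne (h'.symm.trans h)
  suffices H : (∀ b ∈ B, b.1 ≠ b.2) ∧
      (∀ a b, F D q (cutOut R q u) a b → add (F D v R) q u a b ∨ (a, b) ∈ B) ∧
      (∀ b ∈ B, (∃ z, add (F D v R) q u b.1 z ∧ Av l (add (add (F D v R) q u) b.2 z)) ∨
        (∃ z, add (F D v R) q u z b.2 ∧ Av l (add (add (F D v R) q u) z b.1))) by
    obtain ⟨l', m', g1, g2, g3, g4⟩ := kill (add (F D v R) q u) hE B hl H.1 (h1.le H.2.1) H.2.2
    exact ⟨l', m', g1, g2, by omega, g4⟩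
  refine ⟨?_, ?_, ?_⟩
  · intro b hb
    obtain ⟨t, ht, rfl⟩ := Finset.mem_image.1 hb
    exact (Finset.mem_filter.1 ht).2.1.ne'
  · rintro x y ⟨g1, g2 | ⟨g2, g3, g4⟩⟩
    · exact Or.inl (Or.inl ⟨g1, Or.inl g2⟩)
    · by_cases hxy : R x y
      · have : x = q ∧ R y u := by
          by_contra hcon
          exact g4 (Or.inr ⟨g2, g3, hxy, hcon⟩)
        obtain ⟨rfl, hyu⟩ := this
        by_cases hyp : y = u
        · exact Or.inl (Or.inr ⟨rfl, hyp⟩)
        · refine Or.inr (Finset.mem_image.2 ⟨y, ?_, rfl⟩)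
          rw [Finset.mem_filter]
          exact ⟨Finset.mem_univ _, lt_of_le_of_ne g3 (Ne.symm g1), hyp, hyu⟩
      · exact Or.inl (Or.inl ⟨g1, Or.inr ⟨g2.trans hq, g3.trans hq, hxy⟩⟩)
  · intro b hb
    obtain ⟨t, ht, rfl⟩ := Finset.mem_image.1 hb
    obtain ⟨-, ht1, ht2, ht3⟩ := Finset.mem_filter.1 ht
    left
    refine ⟨u, Or.inr ⟨rfl, rfl⟩, (hR t u ht3 ht2 ht1 hu).le ?_⟩
    rintro a b (h | h)
    · exact Or.inl (Or.inl h)
    · exact Or.inr h

theorem Ctx.sub {D : Cl n} {w : ℕ} {s : Fin n × Cl n} {l l' : List (Cl n)}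
    (h : Ctx D w s l) (hl : ∀ C ∈ l, C ∈ l') : Ctx D w s l' :=
  fun t ht hst => (h t ht hst).sub hl

/-- All clauses `F + (p, u)` with `(p, u)` in `R`. -/
theorem pairs_step {k w : ℕ} {D : Cl n} (hD : ∀ a, ¬ D a a) {v : Fin n} {R : Cl n}
    (hv : Valid D w v R) {l : List (Cl n)} {m : ℕ} (hl : Drv k n l m)
    (hc : Ctx D w (v, R) l) :
    ∃ l' m', Drv k n l' m' ∧ (∀ C ∈ l, C ∈ l') ∧ m' ≤ m + n * (n * (2 * n)) ∧
      ∀ a b, R a b → a ≠ b → Av l' (add (F D v R) a b) := by
  have key : ∀ L : ℕ, L ≤ n → ∃ l' m', Drv k n l' m' ∧ (∀ C ∈ l, C ∈ l') ∧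
      m' ≤ m + L * (n * (2 * n)) ∧
      ∀ a b : Fin n, R a b → a ≠ b → a.val < L → b.val < L → Av l' (add (F D v R) a b) := by
    intro L
    induction L with
    | zero =>
      intro _
      exact ⟨l, m, hl, fun C hC => hC, by omega, fun a b _ _ h _ => absurd h (Nat.not_lt_zero _)⟩
    | succ L ih =>
      intro hL
      obtain ⟨l1, m1, h1, h2, h3, h4⟩ := ih (by omega)
      let q : Fin n := ⟨L, by omega⟩
      by_cases hq : q ≤ v
      · let I : Finset (Fin n × Bool) := Finset.univ.filter (fun i : Fin n × Bool =>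
          i.1 < q ∧ if i.2 then R q i.1 else R i.1 q)
        let G : Fin n × Bool → Cl n := fun i =>
          if i.2 then add (F D v R) q i.1 else add (F D v R) i.1 q
        have hI : I.card ≤ 2 * n := by
          refine (Finset.card_le_univ _).trans ?_
          simp [mul_comm]
        obtain ⟨l2, m2, g1, g2, g3, g4⟩ := all_items (c := n) I G l1 (by
          rintro ⟨p, b⟩ hi l' m' hll' hl'
          have hi' := (Finset.mem_filter.1 hi).2
          have hR : ∀ a b, R a b → a ≠ b → a < q → b < q → Av l' (add (F D v R) a b) :=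
            fun a b hab hne ha hb => (h4 a b hab hne ha hb).sub hll'
          have hc' : Ctx D w (v, R) l' := hc.sub (fun C hC => hll' C (h2 C hC))
          cases b with
          | false => 
            exact in_step hD hv hl' hc' q hq hR p hi'.1 (by simpa using hi'.2)
          | true =>
            exact out_step hD hv hl' hc' q hq hR p hi'.1 (by simpa using hi'.2)) m1 h1
        refine ⟨l2, m2, g1, fun C hC => g2 C (h2 C hC), ?_, ?_⟩
        · have e1 : n * I.card ≤ n * (2 * n) := Nat.mul_le_mul_left _ hI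
          have e2 : (L + 1) * (n * (2 * n)) = L * (n * (2 * n)) + n * (2 * n) := by ring
          omega
        · intro a b hab hne ha hb
          by_cases haL : a.val < L
          · by_cases hbL : b.val < L
            · exact (h4 a b hab hne haL hbL).sub g2
            · have hbq : b = q := Fin.ext (by show b.val = L; omega)
              subst hbq
              have := g4 (a, false) (by
                rw [Finset.mem_filter]
                exact ⟨Finset.mem_univ _, haL, by simpa using hab⟩)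
              simpa [G] using this
          · have haq : a = q := Fin.ext (by show a.val = L; omega)
            subst haq
            have hbL : b.val < L := by
              rcases Nat.lt_or_ge b.val L with h | h
              · exact h
              · exact absurd (Fin.ext (by show L = b.val; omega)) hne
            have := g4 (b, true) (by
              rw [Finset.mem_filter]
              exact ⟨Finset.mem_univ _, hbL, by simpa using hab⟩)
            simpa [G] using this
      · refine ⟨l1, m1, h1, h2, ?_, ?_⟩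
        · have e2 : (L + 1) * (n * (2 * n)) = L * (n * (2 * n)) + n * (2 * n) := by ring
          omega
        · intro a b hab hne ha hb
          have hvL : v.val < L := by
            rw [not_le] at hq
            exact hq
          rcases hv.out a b hab with h | ⟨h, h'⟩
          · exact absurd h hne
          · exact h4 a b hab hne (lt_of_le_of_lt h hvL) (lt_of_le_of_lt h' hvL)
  obtain ⟨l', m', h1, h2, h3, h4⟩ := key n le_rfl
  exact ⟨l', m', h1, h2, h3, fun a b hab hne => h4 a b hab hne a.2 b.2⟩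

/-- The next state. -/
def nxt (D R : Cl n) (v x : Fin n) : Cl n := fun a b =>
  R a b ∨ (a = x ∧ b ≤ v ∧ ∀ t, R b t → ¬ D x t) ∨ (b = x ∧ a ≤ v ∧ ∀ t, R t a → ¬ D t x)

/-- The main step. -/
theorem main_step {k w : ℕ} (hkw : k = w + 1) {D : Cl n} (hD : ∀ a, ¬ D a a)
    (hdil : ∀ R : Cl n, (∀ x, R x x) → (∀ x y z, R x y → R y z → R x z) →
      (∀ x y, R x y → ¬ D x y) → ∃ A : Finset (Fin n), IsAnti R A ∧ A.card = k)
    {v : Fin n} {R : Cl n}
    (hv : Valid D w v R) {l : List (Cl n)} {m : ℕ} (hl : Drv k n l m)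
    (hc : Ctx D w (v, R) l) :
    ∃ l' m', Drv k n l' m' ∧ (∀ C ∈ l, C ∈ l') ∧ m' ≤ m + (n * (n * (2 * n)) + 2 * n + 1) ∧
      Av l' (F D v R) := by
  obtain ⟨l1, m1, h1, h2, h3, h4⟩ := pairs_step hD hv hl hc
  by_cases htr : ∀ x y z, R x y → R y z → R x z
  · by_cases hA : ∃ A : Finset (Fin n), IsAnti R A ∧ A.card = k ∧ ∀ x ∈ A, x ≤ v
    · obtain ⟨A, hA1, hA2, hA3⟩ := hA
      refine ⟨F D v R :: l1, m1, Drv.clique _ A h1 hA2 ?_ (F_irr _ _ _),
        fun C hC => List.mem_cons_of_mem _ (h2 C hC), by omega, Av.head⟩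
      intro x hx y hy hxy
      exact ⟨hxy, Or.inr ⟨hA3 x hx, hA3 y hy, hA1 x hx y hy hxy⟩⟩
    · have hvn : v.val + 1 < n := by
        by_contra hcon
        obtain ⟨A, hA1, hA2⟩ := hdil R hv.refl htr hv.dis
        apply hA
        refine ⟨A, hA1, hA2, fun x _ => ?_⟩
        have := x.2
        have h' : x.val ≤ v.val := by omega
        exact h'
      let x : Fin n := ⟨v.val + 1, hvn⟩
      have hvx : v < x := Nat.lt_succ_self v.val
      have hlex : ∀ a : Fin n, a < x ↔ a ≤ v := fun a => Nat.lt_succ_iff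
      have hval : Valid D w x (nxt D R v x) := by
        refine ⟨fun a => Or.inl (hv.refl a), ?_, ?_, ?_, ?_⟩
        · rintro a b (h | ⟨rfl, h, -⟩ | ⟨rfl, h, -⟩)
          · rcases hv.out a b h with h | ⟨h, h'⟩
            · exact Or.inl h
            · exact Or.inr ⟨h.trans hvx.le, h'.trans hvx.le⟩
          · exact Or.inr ⟨le_rfl, h.trans hvx.le⟩
          · exact Or.inr ⟨h.trans hvx.le, le_rfl⟩
        · rintro a b (h | ⟨rfl, h, h'⟩ | ⟨rfl, h, h'⟩)
          · exact hv.dis a b h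
          · exact h' b (hv.refl b)
          · exact h' a (hv.refl a)
        · rintro a b c hb (h | ⟨rfl, h, h'⟩ | ⟨rfl, h, h'⟩) h2
          · rcases h2 with g | ⟨rfl, g, g'⟩ | ⟨rfl, g, g'⟩
            · exact Or.inl (htr _ _ _ h g)
            · exact absurd rfl hb
            · rcases hv.out a b h with e | ⟨e, -⟩
              · subst e
                exact Or.inr (Or.inr ⟨rfl, g, g'⟩)
              · exact Or.inr (Or.inr ⟨rfl, e, fun t ht => g' t (htr _ _ _ ht h)⟩)
          · rcases h2 with g | ⟨rfl, g, g'⟩ | ⟨rfl, g, g'⟩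
            · rcases hv.out b c g with e | ⟨-, e⟩
              · subst e
                exact Or.inr (Or.inl ⟨rfl, h, h'⟩)
              · exact Or.inr (Or.inl ⟨rfl, e, fun t ht => h' t (htr _ _ _ g ht)⟩)
            · exact absurd rfl hb
            · exact Or.inl (hv.refl _)
          · exact absurd rfl hb
        · intro A hA' hAx
          by_contra hcon
          have hk : k ≤ A.card := by omega
          obtain ⟨A', hA'1, hA'2⟩ := Finset.exists_subset_card_eq hk
          apply hA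
          refine ⟨A', ?_, hA'2, fun y hy => (hlex y).1 (hAx y (hA'1 hy))⟩
          intro a ha b hb hab hR
          exact hA' a (hA'1 ha) b (hA'1 hb) hab (Or.inl hR)
      have hrk : rk D (v, R) < rk D (x, nxt D R v x) := by
        have hF : ∀ a b : Fin n, a ≤ v → b ≤ v → (nxt D R v x a b ↔ R a b) := by
          intro a b ha hb
          constructor
          · rintro (h | ⟨rfl, -⟩ | ⟨rfl, -⟩)
            · exact h
            · exact absurd ha (not_le.2 hvx)
            · exact absurd hb (not_le.2 hvx)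
          · exact Or.inl
        refine ⟨x, ?_, ?_⟩
        · intro j hj
          show cnt (F D v R) j + (if j ≤ v then 1 else 0) =
            cnt (F D x (nxt D R v x)) j + (if j ≤ x then 1 else 0)
          have hjv : j ≤ v := (hlex j).1 hj
          rw [if_pos hjv, if_pos hj.le]
          congr 1
          apply cnt_congr
          intro a b hab
          have ha : a ≤ v := (le_max_left a b).trans (hab.le.trans hjv)
          have hb : b ≤ v := (le_max_right a b).trans (hab.le.trans hjv)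
          unfold F
          rw [hF a b ha hb]
          constructor
          · rintro ⟨g1, g2 | ⟨g2, g3, g4⟩⟩
            · exact ⟨g1, Or.inl g2⟩
            · exact ⟨g1, Or.inr ⟨g2.trans hvx.le, g3.trans hvx.le, g4⟩⟩
          · rintro ⟨g1, g2 | ⟨g2, g3, g4⟩⟩
            · exact ⟨g1, Or.inl g2⟩
            · exact ⟨g1, Or.inr ⟨ha, hb, g4⟩⟩
        · show cnt (F D v R) x + (if x ≤ v then 1 else 0) <
            cnt (F D x (nxt D R v x)) x + (if x ≤ x then 1 else 0)
          rw [if_neg (not_le.2 hvx), if_pos le_rfl]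
          apply Nat.lt_succ_of_le
          apply cnt_le
          intro a b hab
          rintro ⟨g1, g2 | ⟨g2, g3, g4⟩⟩
          · exact ⟨g1, Or.inl g2⟩
          · exfalso
            have : max a b ≤ v := max_le g2 g3
            rw [hab] at this
            exact absurd this (not_le.2 hvx)
      have h5 := (hc (x, nxt D R v x) hval hrk).sub h2
      -- the bad arcs
      let B1 : Finset (Fin n × Fin n) :=
        (Finset.univ.filter (fun b : Fin n => b ≤ v ∧ ∃ t, R b t ∧ D x t ∧ b ≠ t)).image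
          (fun b => (x, b))
      let B2 : Finset (Fin n × Fin n) :=
        (Finset.univ.filter (fun a : Fin n => a ≤ v ∧ ∃ t, R t a ∧ D t x ∧ t ≠ a)).image
          (fun a => (a, x))
      have hB1 : B1.card ≤ n := by
        refine Finset.card_image_le.trans ((Finset.card_le_univ _).trans ?_)
        simp
      have hB2 : B2.card ≤ n := by
        refine Finset.card_image_le.trans ((Finset.card_le_univ _).trans ?_)
        simp
      have hB : (B1 ∪ B2).card ≤ 2 * n := (Finset.card_union_le _ _).trans (by omega)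
      suffices H : (∀ b ∈ B1 ∪ B2, b.1 ≠ b.2) ∧
          (∀ a b, F D x (nxt D R v x) a b → F D v R a b ∨ (a, b) ∈ B1 ∪ B2) ∧
          (∀ b ∈ B1 ∪ B2, (∃ z, F D v R b.1 z ∧ Av l1 (add (F D v R) b.2 z)) ∨
            (∃ z, F D v R z b.2 ∧ Av l1 (add (F D v R) z b.1))) by
        obtain ⟨l', m', g1, g2, g3, g4⟩ := kill (F D v R) (F_irr _ _ _) (B1 ∪ B2) h1 H.1
          (h5.le H.2.1) H.2.2
        exact ⟨l', m', g1, fun C hC => g2 C (h2 C hC), by omega, g4⟩
      refine ⟨?_, ?_, ?_⟩
      · intro b hb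
        rcases Finset.mem_union.1 hb with hb | hb
        · obtain ⟨t, ht, rfl⟩ := Finset.mem_image.1 hb
          have := (Finset.mem_filter.1 ht).2.1
          exact (lt_of_le_of_lt this hvx).ne'
        · obtain ⟨t, ht, rfl⟩ := Finset.mem_image.1 hb
          have := (Finset.mem_filter.1 ht).2.1
          exact (lt_of_le_of_lt this hvx).ne
      · rintro a b ⟨g1, g2 | ⟨g2, g3, g4⟩⟩
        · exact Or.inl ⟨g1, Or.inl g2⟩
        · by_cases hab : D a b
          · exact Or.inl ⟨g1, Or.inl hab⟩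
          rcases eq_or_lt_of_le g2 with rfl | hax
          · have hb : b ≤ v := (hlex b).1 (lt_of_le_of_ne g3 (Ne.symm g1))
            have : ¬ ∀ t, R b t → ¬ D x t := fun h => g4 (Or.inr (Or.inl ⟨rfl, hb, h⟩))
            push Not at this
            obtain ⟨t, ht1, ht2⟩ := this
            refine Or.inr (Finset.mem_union_left _ (Finset.mem_image.2 ⟨b, ?_, rfl⟩))
            rw [Finset.mem_filter]
            exact ⟨Finset.mem_univ _, hb, t, ht1, ht2, by rintro rfl; exact hab ht2⟩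
          · have ha : a ≤ v := (hlex a).1 hax
            rcases eq_or_lt_of_le g3 with rfl | hbx
            · have : ¬ ∀ t, R t a → ¬ D t x := fun h => g4 (Or.inr (Or.inr ⟨rfl, ha, h⟩))
              push Not at this
              obtain ⟨t, ht1, ht2⟩ := this
              refine Or.inr (Finset.mem_union_right _ (Finset.mem_image.2 ⟨a, ?_, rfl⟩))
              rw [Finset.mem_filter]
              exact ⟨Finset.mem_univ _, ha, t, ht1, ht2, by rintro rfl; exact hab ht2⟩
            · exact Or.inl ⟨g1, Or.inr ⟨ha, (hlex b).1 hbx, fun h => g4 (Or.inl h)⟩⟩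
      · intro b hb
        rcases Finset.mem_union.1 hb with hb | hb
        · obtain ⟨b, hb', rfl⟩ := Finset.mem_image.1 hb
          obtain ⟨-, hbv, t, ht1, ht2, ht3⟩ := Finset.mem_filter.1 hb'
          left
          refine ⟨t, ⟨?_, Or.inl ht2⟩, h4 b t ht1 ht3⟩
          rintro rfl
          exact hD _ ht2
        · obtain ⟨a, ha', rfl⟩ := Finset.mem_image.1 hb
          obtain ⟨-, hav, t, ht1, ht2, ht3⟩ := Finset.mem_filter.1 ha'
          right
          refine ⟨t, ⟨?_, Or.inl ht2⟩, h4 t a ht1 ht3⟩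
          rintro rfl
          exact hD _ ht2
  · push Not at htr
    obtain ⟨x, y, z, hxy, hyz, hxz⟩ := htr
    have hxy' : x ≠ y := by rintro rfl; exact hxz hyz
    have hyz' : y ≠ z := by rintro rfl; exact hxz hxy
    have hx : x ≤ v := by
      rcases hv.out x y hxy with h | ⟨h, -⟩
      · exact absurd h hxy'
      · exact h
    have hz : z ≤ v := by
      rcases hv.out y z hyz with h | ⟨-, h⟩
      · exact absurd h hyz'
      · exact h
    refine ⟨F D v R :: l1, m1 + 1, av_res h1 _ (F_irr _ _ _) x y z (h4 x y hxy hxy')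
      (h4 y z hyz hyz') ⟨?_, Or.inr ⟨hx, hz, hxz⟩⟩,
      fun C hC => List.mem_cons_of_mem _ (h2 C hC), by omega, Av.head⟩
    rintro rfl
    exact hxz (hv.refl _)

end

end HJ71
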