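import Pool.Agent.HJ71.Defs

/-!
Labelled derivations (resolution by transitivity) and their realisation by
directed Hajós constructions.
-/

namespace HJ71

/-- A labelled clause: a set of arcs on `Fin n`. -/
abbrev Cl (n : ℕ) := Fin n → Fin n → Prop

/-- Labelled derivations: `Drv k n l m` says that `l` is a list of derived clauses with `m`
resolution steps. -/
inductive Drv (k n : ℕ) : List (Cl n) → ℕ → Prop
  | nil : Drv k n [] 0
  | clique {l : List (Cl n)} {m : ℕ} (E : Cl n) (S : Finset (Fin n)) :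
      Drv k n l m → S.card = k → (∀ x ∈ S, ∀ y ∈ S, x ≠ y → E x y) →
      (∀ x, ¬ E x x) → Drv k n (E :: l) m
  | res {l : List (Cl n)} {m : ℕ} (E E1 E2 : Cl n) (x y z : Fin n) :
      Drv k n l m → E1 ∈ l → E2 ∈ l →
      (∀ a b, E1 a b → E a b ∨ (a = x ∧ b = y)) →
      (∀ a b, E2 a b → E a b ∨ (a = y ∧ b = z)) →
      E x z → (∀ a, ¬ E a a) → Drv k n (E :: l) (m + 1)

/-- Some term of `l` is a labelled subdigraph of `E`. -/
def Has {n : ℕ} (l : List Dig) (E : Cl n) : Prop :=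
  ∃ T ∈ l, ∃ φ : T.V → Fin n, Function.Injective φ ∧ ∀ a b, T.adj a b → E (φ a) (φ b)

theorem Has.mono {n : ℕ} {l l' : List Dig} {E : Cl n} (h : Has l E) (hl : ∀ T ∈ l, T ∈ l') :
    Has l' E := by
  obtain ⟨T, hT, φ, h1, h2⟩ := h
  exact ⟨T, hl T hT, φ, h1, h2⟩

theorem Has.le {n : ℕ} {l : List Dig} {E E' : Cl n} (h : Has l E) (hE : ∀ a b, E a b → E' a b) :
    Has l E' := by
  obtain ⟨T, hT, φ, h1, h2⟩ := h
  exact ⟨T, hT, φ, h1, fun a b hab => hE _ _ (h2 a b hab)⟩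

/-- One identification: all vertices with label `x` become one vertex. -/
theorem ident_step {n : ℕ} (T : Dig) (ψ : T.V → Fin n) (E : Cl n) (hE : ∀ a, ¬ E a a)
    (hψ : ∀ a b, T.adj a b → E (ψ a) (ψ b)) (x : Fin n) (hx : ∃ a, ψ a = x) :
    ∃ (T' : Dig) (f : T.V → T'.V) (ψ' : T'.V → Fin n), IsIdent T T' ∧ 
      Function.Surjective f ∧ (∀ a, ψ' (f a) = ψ a) ∧
      (∀ a b, T'.adj a b → E (ψ' a) (ψ' b)) ∧
      (∀ a b, ψ' a = x → ψ' b = x → a = b) ∧
      (∀ a b, f a = f b → a ≠ b → ψ a = x ∧ ψ b = x) := by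
  classical
  have := T.fin
  let f : T.V → Option {a : T.V // ψ a ≠ x} := fun a =>
    if h : ψ a = x then none else some ⟨a, h⟩
  let ψ' : Option {a : T.V // ψ a ≠ x} → Fin n := fun o =>
    match o with
    | none => x
    | some a => ψ a.1
  have hf : Function.Surjective f := by
    intro o
    rcases o with _ | ⟨a, ha⟩
    · obtain ⟨a, ha⟩ := hx
      exact ⟨a, by simp [f, ha]⟩
    · exact ⟨a, by simp [f, ha]⟩
  have hψ'f : ∀ a, ψ' (f a) = ψ a := by
    intro a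
    by_cases h : ψ a = x
    · simp [f, ψ', h]
    · simp [f, ψ', h]
  have hff : ∀ a b, f a = f b ↔ (a = b ∨ (a ∈ {a | ψ a = x} ∧ b ∈ {a | ψ a = x})) := by
    intro a b
    by_cases h : ψ a = x
    · by_cases h' : ψ b = x
      · simp [f, h, h']
      · have : a ≠ b := by rintro rfl; exact h' h
        simp [f, h, h', this]
    · by_cases h' : ψ b = x
      · have : a ≠ b := by rintro rfl; exact h h'
        simp [f, h, h', this]
      · simp [f, h, h']
  let adj' : Option {a : T.V // ψ a ≠ x} → Option {a : T.V // ψ a ≠ x} → Prop := fun p q =>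
    ∃ a b, f a = p ∧ f b = q ∧ T.adj a b
  have hadj : ∀ p q, adj' p q → E (ψ' p) (ψ' q) := by
    rintro p q ⟨a, b, rfl, rfl, hab⟩
    rw [hψ'f, hψ'f]
    exact hψ a b hab
  refine ⟨⟨Option {a : T.V // ψ a ≠ x}, inferInstance, adj', ?_⟩, f, ψ', ?_, hf, hψ'f, hadj,
    ?_, ?_⟩
  · intro p hp
    exact hE _ (hadj p p hp)
  · refine ⟨{a | ψ a = x}, f, hx, ?_, hf, hff, fun _ _ => Iff.rfl⟩
    intro a ha b hb hab
    have := hψ a b hab
    rw [Set.mem_setOf_eq] at ha hb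
    rw [ha, hb] at this
    exact hE _ this
  · intro p q hp hq
    rcases p with _ | ⟨a, ha⟩
    · rcases q with _ | ⟨b, hb⟩
      · rfl
      · exact absurd hq hb
    · exact absurd hp ha
  · intro a b h1 h2
    rcases (hff a b).1 h1 with h | h
    · exact absurd h h2
    · exact h

/-- Identify all equal labels: at most `n` identifications. -/
theorem merge_all {k n : ℕ} (E : Cl n) (hE : ∀ a, ¬ E a a) (l : List Dig) (m : ℕ)
    (hl : Steps k l m) (T : Dig) (hT : T ∈ l) (ψ : T.V → Fin n)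
    (hψ : ∀ a b, T.adj a b → E (ψ a) (ψ b)) :
    ∃ l' m', Steps k l' m' ∧ (∀ S ∈ l, S ∈ l') ∧ m' ≤ m + n ∧ Has l' E := by
  classical
  have key : ∀ s : Finset (Fin n), ∃ l' m', Steps k l' m' ∧ (∀ S ∈ l, S ∈ l') ∧
      m' ≤ m + s.card ∧ ∃ T' ∈ l', ∃ ψ' : T'.V → Fin n,
        (∀ a b, T'.adj a b → E (ψ' a) (ψ' b)) ∧
        (∀ a b, ψ' a = ψ' b → ψ' a ∈ s → a = b) := by
    intro s
    induction s using Finset.induction_on with
    | empty =>
      exact ⟨l, m, hl, fun S hS => hS, by simp, T, hT, ψ, hψ, by simp⟩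
    | insert x s hxs ih =>
      obtain ⟨l', m', h1, h2, h3, T', hT', ψ', h4, h5⟩ := ih
      by_cases hx : ∃ a, ψ' a = x
      · obtain ⟨T'', f, ψ'', g1, g2, g3, g4, g5, g6⟩ := ident_step T' ψ' E hE h4 x hx
        refine ⟨T'' :: l', m' + 1, Steps.ident T' T'' h1 hT' g1,
          fun S hS => List.mem_cons_of_mem _ (h2 S hS), ?_, T'', List.mem_cons_self, ψ'', g4, ?_⟩
        · rw [Finset.card_insert_of_notMem hxs]; omega
        · intro a b hab ha
          rcases Finset.mem_insert.1 ha with h | h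
          · exact g5 a b h (hab ▸ h)
          · obtain ⟨a', rfl⟩ := g2 a
            obtain ⟨b', rfl⟩ := g2 b
            rw [g3, g3] at hab
            rw [g3] at h
            rw [h5 a' b' hab h]
      · refine ⟨l', m', h1, h2, ?_, T', hT', ψ', h4, ?_⟩
        · rw [Finset.card_insert_of_notMem hxs]; omega
        · intro a b hab ha
          rcases Finset.mem_insert.1 ha with h | h
          · exact absurd ⟨a, h⟩ hx
          · exact h5 a b hab h
  obtain ⟨l', m', h1, h2, h3, T', hT', ψ', h4, h5⟩ := key Finset.univ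
  refine ⟨l', m', h1, h2, ?_, T', hT', ψ', ?_, h4⟩
  · simpa using h3
  · intro a b hab
    exact h5 a b hab (Finset.mem_univ _)

/-- The Hajós join of two labelled digraphs. -/
theorem join_step {n : ℕ} (A B : Dig) (φ : A.V → Fin n) (χ : B.V → Fin n)
    (hφ : Function.Injective φ) (hχ : Function.Injective χ) (E : Cl n) (hE : ∀ a, ¬ E a a)
    (x y z : Fin n) (hxz : E x z)
    (hA : ∀ a b, A.adj a b → E (φ a) (φ b) ∨ (φ a = x ∧ φ b = y))
    (hB : ∀ a b, B.adj a b → E (χ a) (χ b) ∨ (χ a = y ∧ χ b = z))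
    (u₁ v₁ : A.V) (huv : A.adj u₁ v₁) (hu₁ : φ u₁ = x) (hv₁ : φ v₁ = y)
    (v₂ u₂ : B.V) (hvu : B.adj v₂ u₂) (hv₂ : χ v₂ = y) (hu₂ : χ u₂ = z) :
    ∃ (C : Dig) (ψ : C.V → Fin n), IsJoin A B C ∧ ∀ a b, C.adj a b → E (ψ a) (ψ b) := by
  classical
  have := A.fin
  have := B.fin
  let f : A.V → {a : A.V // a ≠ v₁} ⊕ B.V := fun a =>
    if h : a = v₁ then Sum.inr v₂ else Sum.inl ⟨a, h⟩
  let g : B.V → {a : A.V // a ≠ v₁} ⊕ B.V := Sum.inr
  let ψ : {a : A.V // a ≠ v₁} ⊕ B.V → Fin n := Sum.elim (fun a => φ a.1) χ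
  have hψf : ∀ a, ψ (f a) = φ a := by
    intro a
    by_cases h : a = v₁
    · subst h
      simp [f, ψ, hv₁, hv₂]
    · simp [f, ψ, h]
  have hψg : ∀ b, ψ (g b) = χ b := fun b => rfl
  have hf : Function.Injective f := by
    intro a b hab
    apply hφ
    rw [← hψf, ← hψf, hab]
  have hg : Function.Injective g := Sum.inr_injective
  let adj' : ({a : A.V // a ≠ v₁} ⊕ B.V) → ({a : A.V // a ≠ v₁} ⊕ B.V) → Prop := fun x y =>
    (∃ a a', f a = x ∧ f a' = y ∧ A.adj a a' ∧ ¬ (a = u₁ ∧ a' = v₁)) ∨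
      (∃ b b', g b = x ∧ g b' = y ∧ B.adj b b' ∧ ¬ (b = v₂ ∧ b' = u₂)) ∨
      (x = f u₁ ∧ y = g u₂)
  have hadj : ∀ p q, adj' p q → E (ψ p) (ψ q) := by
    rintro p q (⟨a, a', rfl, rfl, haa, hne⟩ | ⟨b, b', rfl, rfl, hbb, hne⟩ | ⟨rfl, rfl⟩)
    · rw [hψf, hψf]
      rcases hA a a' haa with h | ⟨h1, h2⟩
      · exact h
      · exact absurd ⟨hφ (h1.trans hu₁.symm), hφ (h2.trans hv₁.symm)⟩ hne
    · rw [hψg, hψg]
      rcases hB b b' hbb with h | ⟨h1, h2⟩
      · exact h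
      · exact absurd ⟨hχ (h1.trans hv₂.symm), hχ (h2.trans hu₂.symm)⟩ hne
    · rw [hψf, hψg, hu₁, hu₂]
      exact hxz
  refine ⟨⟨{a : A.V // a ≠ v₁} ⊕ B.V, inferInstance, adj', ?_⟩, ψ, ?_, hadj⟩
  · intro p hp
    exact hE _ (hadj p p hp)
  · refine ⟨u₁, v₁, v₂, u₂, f, g, huv, hvu, hf, hg, ?_, ?_, fun _ _ => Iff.rfl⟩
    · intro a b
      constructor
      · intro h
        by_cases h' : a = v₁
        · subst h'
          refine ⟨rfl, ?_⟩
          have : (Sum.inr v₂ : {a : A.V // a ≠ a} ⊕ B.V) = Sum.inr b ∨ True := Or.inr trivial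
          simp [f, g] at h
          exact h.symm
        · simp [f, g, h'] at h
      · rintro ⟨rfl, rfl⟩
        simp [f, g]
    · rintro (⟨a, ha⟩ | b)
      · exact Or.inl ⟨a, by simp [f, ha]⟩
      · exact Or.inr ⟨b, rfl⟩

theorem realize {k n : ℕ} {l : List (Cl n)} {m : ℕ} (h : Drv k n l m) :
    ∃ (l' : List Dig) (m' : ℕ), Steps k l' m' ∧ m' ≤ (n + 1) * m ∧ ∀ E ∈ l, Has l' E := by
  classical
  induction h with
  | nil => exact ⟨[], 0, Steps.nil, by simp, by simp⟩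
  | @clique l m E S hl hS hSE hE ih =>
    obtain ⟨l', m', h1, h2, h3⟩ := ih
    let T : Dig := ⟨↥S, inferInstance, fun x y => x ≠ y, fun v h => h rfl⟩
    refine ⟨T :: l', m', Steps.base T h1 ⟨?_, fun _ _ => Iff.rfl⟩, h2, ?_⟩
    · show Nat.card ↥S = k
      simp [hS]
    · intro E' hE'
      rcases List.mem_cons.1 hE' with rfl | hE'
      · refine ⟨T, List.mem_cons_self, Subtype.val, Subtype.val_injective, ?_⟩
        rintro ⟨a, ha⟩ ⟨b, hb⟩ hab
        exact hSE a ha b hb (fun h => hab (Subtype.ext h))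
      · exact (h3 E' hE').mono (fun T hT => List.mem_cons_of_mem _ hT)
  | @res l m E E1 E2 x y z hl hE1 hE2 h12 h22 hxz hE ih =>
    obtain ⟨l', m', h1, h2, h3⟩ := ih
    have main : ∃ (l'' : List Dig) (m'' : ℕ), Steps k l'' m'' ∧ (∀ S ∈ l', S ∈ l'') ∧
        m'' ≤ m' + (n + 1) ∧ Has l'' E := by
      obtain ⟨A, hA, φ, hφ, hφE⟩ := h3 E1 hE1
      obtain ⟨B, hB, χ, hχ, hχE⟩ := h3 E2 hE2
      by_cases ha : ∃ u₁ v₁, A.adj u₁ v₁ ∧ φ u₁ = x ∧ φ v₁ = y
      · by_cases hb : ∃ v₂ u₂, B.adj v₂ u₂ ∧ χ v₂ = y ∧ χ u₂ = z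
        · obtain ⟨u₁, v₁, huv, hu₁, hv₁⟩ := ha
          obtain ⟨v₂, u₂, hvu, hv₂, hu₂⟩ := hb
          obtain ⟨C, ψ, hC, hψ⟩ := join_step A B φ χ hφ hχ E hE x y z hxz
            (fun a b hab => h12 _ _ (hφE a b hab)) (fun a b hab => h22 _ _ (hχE a b hab))
            u₁ v₁ huv hu₁ hv₁ v₂ u₂ hvu hv₂ hu₂
          obtain ⟨l'', m'', g1, g2, g3, g4⟩ := merge_all E hE (C :: l') (m' + 1)
            (Steps.join A B C h1 hA hB hC) C List.mem_cons_self ψ hψ
          exact ⟨l'', m'', g1, fun S hS => g2 S (List.mem_cons_of_mem _ hS), by omega, g4⟩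
        · refine ⟨l', m', h1, fun S hS => hS, by omega, B, hB, χ, hχ, ?_⟩
          intro a b hab
          rcases h22 _ _ (hχE a b hab) with h | h
          · exact h
          · exact absurd ⟨a, b, hab, h⟩ hb
      · refine ⟨l', m', h1, fun S hS => hS, by omega, A, hA, φ, hφ, ?_⟩
        intro a b hab
        rcases h12 _ _ (hφE a b hab) with h | h
        · exact h
        · exact absurd ⟨a, b, hab, h⟩ ha
    obtain ⟨l'', m'', g1, g2, g3, g4⟩ := main
    refine ⟨l'', m'', g1, ?_, ?_⟩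
    · have : (n + 1) * (m + 1) = (n + 1) * m + (n + 1) := by ring
      omega
    · intro E' hE'
      rcases List.mem_cons.1 hE' with rfl | hE'
      · exact g4
      · exact (h3 E' hE').mono g2

/-- A suffix of a construction is a construction. -/
theorem steps_suffix {k : ℕ} {l : List Dig} {m : ℕ} (h : Steps k l m) (T : Dig) (hT : T ∈ l) :
    ∃ l' m', Steps k (T :: l') m' ∧ m' ≤ m := by
  induction h with
  | nil => simp at hT
  | @base l m D hl hD ih =>
    rcases List.mem_cons.1 hT with rfl | hT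
    · exact ⟨l, m, Steps.base _ hl hD, le_refl _⟩
    · exact ih hT
  | @join l m A B C hl hA hB hC ih =>
    rcases List.mem_cons.1 hT with rfl | hT
    · exact ⟨l, m + 1, Steps.join A B _ hl hA hB hC, le_refl _⟩
    · obtain ⟨l', m', h1, h2⟩ := ih hT
      exact ⟨l', m', h1, by omega⟩
  | @ident l m A C hl hA hC ih =>
    rcases List.mem_cons.1 hT with rfl | hT
    · exact ⟨l, m + 1, Steps.ident A _ hl hA hC, le_refl _⟩
    · obtain ⟨l', m', h1, h2⟩ := ih hT
      exact ⟨l', m', h1, by omega⟩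

end HJ71
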